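import Pool.Agent.MP_e848aa_gt.Basic

/-! Closed images of metalindelof spaces: covers which are unions of at most aleph one
point-countable families. -/

open Set Topology Cardinal

namespace Pool.Agent.MP_e848aa_gt

universe u v w

/-- A type of size at most aleph one carries a well-order with countable initial segments. -/
theorem exists_wellOrder_countable (ι : Type w) (hι : #ι ≤ ℵ₁) :
    ∃ r : ι → ι → Prop, IsWellOrder ι r ∧ ∀ i, {j | r j i}.Countable := by
  obtain ⟨r, hr, h⟩ := Cardinal.exists_ord_eq ι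
  refine ⟨r, hr, fun i => ?_⟩
  rw [← Cardinal.le_aleph0_iff_set_countable]
  have h1 : Ordinal.typein r i < Ordinal.type r := Ordinal.typein_lt_type r i
  rw [← h, Cardinal.lt_ord, Ordinal.card_typein] at h1
  exact Cardinal.lt_aleph_one_iff.mp (lt_of_lt_of_le h1 hι)

/-- The main step. -/
theorem coverable_of_alephOne {X : Type u} {Y : Type v} [TopologicalSpace X] [TopologicalSpace Y]
    (hX : Metalindelof X) {f : X → Y} (hf : ClosedMapping f) {ι : Type w} (hι : #ι ≤ ℵ₁)
    (𝒰 : ι → Set (Set Y)) (ho : ∀ i, ∀ U ∈ 𝒰 i, IsOpen U) (hp : ∀ i, PointCountable (𝒰 i))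
    (hc : ∀ y, ∃ i, ∃ U ∈ 𝒰 i, y ∈ U) : Coverable (⋃ i, 𝒰 i) univ := by
  classical
  by_cases hcount : Countable ι
  · refine ⟨⋃ i, 𝒰 i, ?_, ?_, ?_, ?_⟩
    · intro V hV
      obtain ⟨i, hi⟩ := mem_iUnion.mp hV
      exact ho i V hi
    · intro V hV
      exact ⟨V, hV, subset_rfl⟩
    · intro y
      have : {V : Set Y | V ∈ ⋃ i, 𝒰 i ∧ y ∈ V} ⊆ ⋃ i, {V : Set Y | V ∈ 𝒰 i ∧ y ∈ V} := by
        rintro V ⟨hV, hy⟩
        obtain ⟨i, hi⟩ := mem_iUnion.mp hV
        exact mem_iUnion.mpr ⟨i, hi, hy⟩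
      exact (countable_iUnion fun i => hp i y).mono this
    · intro y _
      obtain ⟨i, U, hU, hy⟩ := hc y
      exact ⟨U, mem_iUnion.mpr ⟨i, hU⟩, hy⟩
  · obtain ⟨r, hr, hseg⟩ := exists_wellOrder_countable ι hι
    have := hr
    -- cover of the domain
    obtain ⟨V, hVo, hVU, hVc, hVp⟩ := hX.shrink (ι := ι) (fun i => f ⁻¹' (⋃₀ 𝒰 i))
      (fun i => (isOpen_sUnion (ho i)).preimage hf.continuous) (by
        intro x
        obtain ⟨i, U, hU, hy⟩ := hc (f x)
        exact ⟨i, U, hU, hy⟩)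
    let C : ι → Set X := fun i => {x | ∀ j, x ∈ V j → r j i}
    have hC : ∀ i, IsClosed (C i) := by
      intro i
      have : C i = (⋃ (j : ι) (_ : ¬ r j i), V j)ᶜ := by
        ext x
        simp only [C, mem_ofPred_eq, mem_compl_iff, mem_iUnion, not_exists]
        constructor
        · intro h j hj hx
          exact hj (h j hx)
        · intro h j hx
          by_contra hj
          exact h j hj hx
      rw [this]
      exact (isOpen_iUnion fun j => isOpen_iUnion fun _ => hVo j).isClosed_compl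
    have hfC : ∀ i, IsClosed (f '' C i) := fun i => hf.isClosedMap _ (hC i)
    -- boundedness
    have hbd : ∀ x, ∃ i, x ∈ C i := by
      intro x
      by_contra hcon
      push Not at hcon
      apply hcount
      have : (univ : Set ι) ⊆ ⋃ j ∈ {j | x ∈ V j}, insert j {i | r i j} := by
        intro i _
        have := hcon i
        simp only [C, mem_ofPred_eq, not_forall] at this
        obtain ⟨j, hj, hji⟩ := this
        simp only [mem_iUnion]
        refine ⟨j, hj, ?_⟩
        rcases trichotomous_of r i j with h | h | h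
        · exact Or.inr h
        · exact Or.inl h
        · exact absurd h hji
      have h2 : (⋃ j ∈ {j | x ∈ V j}, insert j {i | r i j}).Countable :=
        (hVp x).biUnion fun j _ => (hseg j).insert j
      exact Set.countable_univ_iff.mp (h2.mono this)
    refine coverable_of_indexed (ι := Σ i, 𝒰 i) (fun p => p.2.1 \ f '' C p.1) ?_ ?_ ?_ ?_
    · rintro ⟨i, U⟩
      exact (ho i U.1 U.2).sdiff (hfC i)
    · rintro ⟨i, U⟩
      exact ⟨U.1, mem_iUnion.mpr ⟨i, U.2⟩, sdiff_subset⟩
    · intro y _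
      have hne : {i | ∃ U ∈ 𝒰 i, y ∈ U}.Nonempty := hc y
      have hwf : WellFounded r := hr.wf
      obtain ⟨U, hU, hyU⟩ := hwf.min_mem {i | ∃ U ∈ 𝒰 i, y ∈ U} hne
      refine ⟨⟨hwf.min {i | ∃ U ∈ 𝒰 i, y ∈ U} hne, ⟨U, hU⟩⟩, hyU, ?_⟩
      rintro ⟨x, hx, rfl⟩
      obtain ⟨j, hj⟩ := hVc x
      have h1 := hx j hj
      obtain ⟨U', hU', hy'⟩ := hVU j hj
      exact hwf.not_lt_min (x := j) {i | ∃ U ∈ 𝒰 i, f x ∈ U} ⟨U', hU', hy'⟩ h1
    · intro y
      obtain ⟨x, rfl⟩ := hf.surjective y
      obtain ⟨u, hu⟩ := hbd x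
      have : {p : Σ i, 𝒰 i | f x ∈ p.2.1 \ f '' C p.1} ⊆
          ⋃ i ∈ {i | r i u}, (fun U : 𝒰 i => (⟨i, U⟩ : Σ i, 𝒰 i)) '' {U : 𝒰 i | f x ∈ U.1} := by
        rintro ⟨i, U⟩ ⟨hy, hn⟩
        simp only [mem_iUnion]
        refine ⟨i, ?_, U, hy, rfl⟩
        by_contra hiu
        apply hn
        refine ⟨x, ?_, rfl⟩
        intro j hj
        have h1 := hu j hj
        rcases trichotomous_of r i u with h | h | h
        · exact absurd h hiu
        · exact h.symm ▸ h1
        · exact _root_.trans h1 h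
      refine Set.Countable.mono this ?_
      refine (hseg u).biUnion fun i _ => ?_
      refine Set.Countable.image ?_ _
      have := hp i (f x)
      refine Set.Countable.mono ?_ (this.preimage_of_injOn (f := fun U : 𝒰 i => U.1)
        Subtype.val_injective.injOn)
      intro U hU
      exact ⟨U.2, hU⟩

end Pool.Agent.MP_e848aa_gt
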