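import Pool.Agent.MP_e848aa_gt.LindelofBoundary

/-! Putting together pieces of the target. -/

open Set Topology Cardinal

namespace Pool.Agent.MP_e848aa_gt

universe u v w

/-- A family of pieces, at most aleph one many, each coverable, a subfamily of the cover with at
most aleph one members, and a closed remainder. -/
theorem hasPCR_of_pieces {X : Type u} {Y : Type v} [TopologicalSpace X]
    [TopologicalSpace Y] (hX : Metalindelof X) {f : X → Y} (hf : ClosedMapping f)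
    (𝒰 : Set (Set Y)) (h𝒰 : OpenCover 𝒰) (𝒰₁ : Set (Set Y)) (hsub : 𝒰₁ ⊆ 𝒰) (hcard : #𝒰₁ ≤ ℵ₁)
    {ι : Type w} (hι : #ι ≤ ℵ₁) (H : ι → Set Y)
    (hH : ∀ i, Coverable 𝒰 (H i))
    (hrest : ∀ K : Set Y, IsClosed K →
      (∀ y ∈ K, y ∉ ⋃₀ 𝒰₁ ∧ ∀ i, y ∉ H i) → Coverable 𝒰 K) :
    HasPointCountableOpenRefinement 𝒰 := by
  classical
  apply hasPCR_of_coverable
  choose 𝒱 v1 v2 v3 v4 using hH
  let Ω : Set Y := ⋃₀ 𝒰₁ ∪ ⋃ i, ⋃₀ 𝒱 i
  have hΩ : IsOpen Ω := (isOpen_sUnion fun U hU => h𝒰.1 U (hsub hU)).union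
    (isOpen_iUnion fun i => isOpen_sUnion (v1 i))
  obtain ⟨𝒲, w1, w2, w3, w4⟩ := hrest Ωᶜ hΩ.isClosed_compl (by
    intro y hy
    refine ⟨fun h => hy (Or.inl h), fun i h => hy (Or.inr ?_)⟩
    exact mem_iUnion.mpr ⟨i, v4 i h⟩)
  let F : (ι ⊕ 𝒰₁) ⊕ Unit → Set (Set Y) := fun j =>
    match j with
    | Sum.inl (Sum.inl i) => 𝒱 i
    | Sum.inl (Sum.inr U) => {U.1}
    | Sum.inr _ => 𝒲
  have hcardF : #((ι ⊕ 𝒰₁) ⊕ Unit) ≤ ℵ₁ := by
    have h1 : lift.{v} #ι ≤ ℵ₁ := by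
      have := Cardinal.lift_le.{v}.mpr hι
      simpa using this
    have h2 : lift.{w} #𝒰₁ ≤ ℵ₁ := by
      have := Cardinal.lift_le.{w}.mpr hcard
      simpa using this
    have h3 : #(ι ⊕ 𝒰₁) ≤ ℵ₁ := by
      rw [Cardinal.mk_sum]
      exact (add_le_add h1 h2).trans (Cardinal.add_eq_self (Cardinal.aleph0_le_aleph 1)).le
    rw [Cardinal.mk_sum]
    refine (add_le_add ?_ ?_).trans (Cardinal.add_eq_self (Cardinal.aleph0_le_aleph 1)).le
    · simpa using h3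
    · have : (1 : Cardinal.{max v w}) ≤ ℵ₁ :=
        Cardinal.one_le_aleph0.trans (Cardinal.aleph0_le_aleph 1)
      simpa using this
  have key := coverable_of_alephOne hX hf hcardF F (by
    rintro ((i | U) | _) V hV
    · exact v1 i V hV
    · have : V = U.1 := hV
      rw [this]
      exact h𝒰.1 _ (hsub U.2)
    · exact w1 V hV) (by
    rintro ((i | U) | _)
    · exact v3 i
    · intro y
      refine (countable_singleton U.1).mono ?_
      rintro V ⟨hV, _⟩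
      exact hV
    · exact w3) (by
    intro y
    by_cases hy : y ∈ Ω
    · rcases hy with ⟨U, hU, hyU⟩ | hy
      · exact ⟨Sum.inl (Sum.inr ⟨U, hU⟩), U, rfl, hyU⟩
      · obtain ⟨i, V, hV, hyV⟩ := mem_iUnion.mp hy
        exact ⟨Sum.inl (Sum.inl i), V, hV, hyV⟩
    · obtain ⟨V, hV, hyV⟩ := w4 hy
      exact ⟨Sum.inr (), V, hV, hyV⟩)
  refine key.mono_refines ?_
  intro V hV
  obtain ⟨j, hj⟩ := mem_iUnion.mp hV
  rcases j with ((i | U) | _)
  · exact v2 i V hj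
  · have : V = U.1 := hj
    exact ⟨U.1, hsub U.2, this.le⟩
  · exact w2 V hj

end Pool.Agent.MP_e848aa_gt
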