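import Pool.Agent.MP_e848aa_gt.Defs

/-! Basic lemmas on point-countable refinements. -/

open Set Topology Cardinal

namespace Pool.Agent.MP_e848aa_gt

universe u v w

/-- Relative covering property: the subset `H` is covered by a point-countable (in the whole
space) family of open sets refining `𝒰`. -/
def Coverable {Y : Type v} [TopologicalSpace Y] (𝒰 : Set (Set Y)) (H : Set Y) : Prop :=
  ∃ 𝒱 : Set (Set Y), (∀ V ∈ 𝒱, IsOpen V) ∧ Refines 𝒱 𝒰 ∧ PointCountable 𝒱 ∧ H ⊆ ⋃₀ 𝒱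

theorem hasPCR_of_coverable {Y : Type v} [TopologicalSpace Y] {𝒰 : Set (Set Y)}
    (h : Coverable 𝒰 univ) : HasPointCountableOpenRefinement 𝒰 := by
  obtain ⟨𝒱, h1, h2, h3, h4⟩ := h
  exact ⟨𝒱, ⟨h1, univ_subset_iff.mp h4⟩, h2, h3⟩

theorem Coverable.mono_refines {Y : Type v} [TopologicalSpace Y] {𝒰 𝒰' : Set (Set Y)} {H : Set Y}
    (h : Coverable 𝒰 H) (hr : Refines 𝒰 𝒰') : Coverable 𝒰' H := by
  obtain ⟨𝒱, h1, h2, h3, h4⟩ := h
  refine ⟨𝒱, h1, ?_, h3, h4⟩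
  intro V hV
  obtain ⟨U, hU, hVU⟩ := h2 V hV
  obtain ⟨U', hU', hUU'⟩ := hr U hU
  exact ⟨U', hU', hVU.trans hUU'⟩

theorem Coverable.mono_set {Y : Type v} [TopologicalSpace Y] {𝒰 : Set (Set Y)} {H H' : Set Y}
    (h : Coverable 𝒰 H) (hr : H' ⊆ H) : Coverable 𝒰 H' := by
  obtain ⟨𝒱, h1, h2, h3, h4⟩ := h
  exact ⟨𝒱, h1, h2, h3, hr.trans h4⟩

/-- Indexed criterion. -/
theorem coverable_of_indexed {Y : Type v} [TopologicalSpace Y] {𝒰 : Set (Set Y)} {H : Set Y}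
    {ι : Type w} (V : ι → Set Y) (ho : ∀ i, IsOpen (V i)) (hr : ∀ i, ∃ U ∈ 𝒰, V i ⊆ U)
    (hc : ∀ y ∈ H, ∃ i, y ∈ V i) (hp : ∀ y, {i | y ∈ V i}.Countable) : Coverable 𝒰 H := by
  refine ⟨range V, ?_, ?_, ?_, ?_⟩
  · rintro _ ⟨i, rfl⟩
    exact ho i
  · rintro _ ⟨i, rfl⟩
    exact hr i
  · intro y
    refine ((hp y).image V).mono ?_
    rintro _ ⟨⟨i, rfl⟩, hy⟩
    exact ⟨i, hy, rfl⟩
  · intro y hy
    obtain ⟨i, hi⟩ := hc y hy
    exact ⟨V i, ⟨i, rfl⟩, hi⟩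

/-- A countable union of coverable sets is coverable. -/
theorem coverable_iUnion {Y : Type v} [TopologicalSpace Y] {𝒰 : Set (Set Y)}
    {ι : Type w} [Countable ι] (H : ι → Set Y) (h : ∀ i, Coverable 𝒰 (H i)) :
    Coverable 𝒰 (⋃ i, H i) := by
  choose 𝒱 h1 h2 h3 h4 using h
  refine ⟨⋃ i, 𝒱 i, ?_, ?_, ?_, ?_⟩
  · intro V hV
    obtain ⟨i, hi⟩ := mem_iUnion.mp hV
    exact h1 i V hi
  · intro V hV
    obtain ⟨i, hi⟩ := mem_iUnion.mp hV
    exact h2 i V hi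
  · intro y
    have : {V : Set Y | V ∈ ⋃ i, 𝒱 i ∧ y ∈ V} ⊆ ⋃ i, {V : Set Y | V ∈ 𝒱 i ∧ y ∈ V} := by
      rintro V ⟨hV, hy⟩
      obtain ⟨i, hi⟩ := mem_iUnion.mp hV
      exact mem_iUnion.mpr ⟨i, hi, hy⟩
    exact (countable_iUnion fun i => h3 i y).mono this
  · intro y hy
    obtain ⟨i, hi⟩ := mem_iUnion.mp hy
    obtain ⟨V, hV, hyV⟩ := h4 i hi
    exact ⟨V, mem_iUnion.mpr ⟨i, hV⟩, hyV⟩

/-- Indexed shrinking in a metalindelof space. -/
theorem Metalindelof.shrink {X : Type u} [TopologicalSpace X] (hX : Metalindelof X)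
    {ι : Type w} (U : ι → Set X) (ho : ∀ i, IsOpen (U i)) (hc : ∀ x, ∃ i, x ∈ U i) :
    ∃ V : ι → Set X, (∀ i, IsOpen (V i)) ∧ (∀ i, V i ⊆ U i) ∧ (∀ x, ∃ i, x ∈ V i) ∧
      ∀ x, {i | x ∈ V i}.Countable := by
  classical
  obtain ⟨𝒱, ⟨h1, h2⟩, h3, h4⟩ := hX (range U) ⟨by rintro _ ⟨i, rfl⟩; exact ho i, by
    rw [eq_univ_iff_forall]
    intro x
    obtain ⟨i, hi⟩ := hc x
    exact ⟨U i, ⟨i, rfl⟩, hi⟩⟩
  have h3' : ∀ V : 𝒱, ∃ i, V.1 ⊆ U i := by
    intro V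
    obtain ⟨_, ⟨i, rfl⟩, hi⟩ := h3 V.1 V.2
    exact ⟨i, hi⟩
  choose g hg using h3'
  refine ⟨fun i => ⋃ (V : 𝒱) (_ : g V = i), V.1, ?_, ?_, ?_, ?_⟩
  · intro i
    refine isOpen_iUnion fun V => isOpen_iUnion fun _ => h1 V.1 V.2
  · intro i x hx
    simp only [mem_iUnion] at hx
    obtain ⟨V, hV, hx⟩ := hx
    rw [← hV]
    exact hg V hx
  · intro x
    have hx : x ∈ ⋃₀ 𝒱 := by rw [h2]; trivial
    obtain ⟨V, hV, hxV⟩ := hx
    refine ⟨g ⟨V, hV⟩, ?_⟩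
    simp only [mem_iUnion]
    exact ⟨⟨V, hV⟩, rfl, hxV⟩
  · intro x
    have hcount : {V : 𝒱 | x ∈ V.1}.Countable := by
      have := (h4 x)
      refine Set.Countable.preimage_of_injOn (f := fun V : 𝒱 => V.1) (s := {V : Set X | V ∈ 𝒱 ∧ x ∈ V}) this ?_ |>.mono ?_
      · exact Subtype.val_injective.injOn
      · intro V hV
        exact ⟨V.2, hV⟩
    refine (hcount.image g).mono ?_
    intro i hi
    simp only [mem_setOf_eq, mem_iUnion] at hi
    obtain ⟨V, hV, hx⟩ := hi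
    exact ⟨V, hx, hV⟩

/-- Indexed shrinking relative to a closed subset. -/
theorem Metalindelof.shrinkOn {X : Type u} [TopologicalSpace X] (hX : Metalindelof X)
    {ι : Type w} (U : ι → Set X) (ho : ∀ i, IsOpen (U i)) (K : Set X) (hK : IsClosed K)
    (hc : ∀ x ∈ K, ∃ i, x ∈ U i) :
    ∃ V : ι → Set X, (∀ i, IsOpen (V i)) ∧ (∀ i, V i ⊆ U i) ∧ (∀ x ∈ K, ∃ i, x ∈ V i) ∧
      ∀ x, {i | x ∈ V i}.Countable := by
  classical
  obtain ⟨V, h1, h2, h3, h4⟩ := hX.shrink (ι := Option ι)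
    (fun o => o.elim Kᶜ U) (by
      intro o
      cases o with
      | none => exact hK.isOpen_compl
      | some i => exact ho i) (by
      intro x
      by_cases hx : x ∈ K
      · obtain ⟨i, hi⟩ := hc x hx
        exact ⟨some i, hi⟩
      · exact ⟨none, hx⟩)
  refine ⟨fun i => V (some i), fun i => h1 _, fun i => h2 (some i), ?_, ?_⟩
  · intro x hx
    obtain ⟨o, ho⟩ := h3 x
    cases o with
    | none => exact absurd hx (h2 none ho)
    | some i => exact ⟨i, ho⟩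
  · intro x
    exact (h4 x).preimage_of_injOn (f := some) (Option.some_injective ι).injOn

/-- The set of points whose fibre is contained in `W` is open for `W` open. -/
theorem isOpen_kern {X : Type u} {Y : Type v} [TopologicalSpace X] [TopologicalSpace Y]
    {f : X → Y} (hf : IsClosedMap f) {W : Set X} (hW : IsOpen W) :
    IsOpen {y : Y | ∀ x, f x = y → x ∈ W} := by
  have : {y : Y | ∀ x, f x = y → x ∈ W} = (f '' Wᶜ)ᶜ := by
    ext y
    simp only [mem_setOf_eq, mem_compl_iff, mem_image, not_exists, not_and]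
    constructor
    · intro h x hx hxy
      exact hx (h x hxy)
    · intro h x hxy
      by_contra hx
      exact h x hx hxy
  rw [this]
  exact (hf _ hW.isClosed_compl).isOpen_compl

end Pool.Agent.MP_e848aa_gt
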