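import Pool.Agent.MP_e848aa_gt.Basic

/-! Closed mappings whose fibres have a finite boundary: the ancestors argument. -/

open Set Topology Cardinal

namespace Pool.Agent.MP_e848aa_gt

universe u v w

/-- Abstract form.  `T` is a set-valued selector with `T y` a nonempty subset of the fibre of
`y`, such that `{y | T y ⊆ W}` is open for open `W`, and finite for `y ∈ H`. -/
theorem coverable_of_selector {X : Type u} {Y : Type v} [TopologicalSpace X] [TopologicalSpace Y]
    (hX : Metalindelof X) {f : X → Y} (hf : Continuous f)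
    (T : Y → Set X) (hTne : ∀ y, (T y).Nonempty) (hTf : ∀ y, ∀ x ∈ T y, f x = y)
    (hTo : ∀ W : Set X, IsOpen W → IsOpen {y | T y ⊆ W})
    (H : Set Y) (hH : IsClosed H) (hTfin : ∀ y ∈ H, (T y).Finite)
    (𝒰 : Set (Set Y)) (ho : ∀ U ∈ 𝒰, IsOpen U) (hc : H ⊆ ⋃₀ 𝒰) : Coverable 𝒰 H := by
  classical
  have hU : ∀ y : H, ∃ U ∈ 𝒰, y.1 ∈ U := fun y => hc y.2
  choose U0 hU0 hyU0 using hU
  -- one step
  have step : ∀ C : Y → Set Y, (∀ y, IsOpen (C y)) → (∀ y, y ∈ C y) → (∀ y, y ∉ H → C y = Hᶜ) →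
      ∃ V : Y → Set X, ∃ P : Y → Set Y, (∀ y, IsOpen (V y)) ∧ (∀ y, V y ⊆ f ⁻¹' (C y)) ∧
        (∀ x, ∃ y, x ∈ V y) ∧ (∀ x, {y | x ∈ V y}.Countable) ∧
        (∀ y ∈ H, (P y).Finite) ∧ (∀ y ∈ H, ∀ x ∈ T y, ∃ z ∈ P y, x ∈ V z) ∧
        (∀ y ∈ H, P y ⊆ H) := by
    intro C hCo hCy hCH
    obtain ⟨V, h1, h2, h3, h4⟩ := hX.shrink (ι := Y) (fun y => f ⁻¹' (C y))
      (fun y => (hCo y).preimage hf) (fun x => ⟨f x, hCy (f x)⟩)
    choose g hg using h3
    refine ⟨V, fun y => g '' (T y), h1, h2, fun x => ⟨g x, hg x⟩, h4, ?_, ?_, ?_⟩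
    · intro y hy
      exact (hTfin y hy).image g
    · intro y hy x hx
      exact ⟨g x, ⟨x, hx, rfl⟩, hg x⟩
    · rintro y hy _ ⟨x, hx, rfl⟩
      by_contra hcon
      have h5 := h2 _ (hg x)
      rw [hCH _ hcon] at h5
      apply h5
      show f x ∈ H
      rw [hTf y x hx]
      exact hy
  choose! stepV stepP s1 s2 s3 s4 s5 s6 s7 using step
  -- the recursion on covers of `Y`
  let C0 : Y → Set Y := fun y => if h : y ∈ H then U0 ⟨y, h⟩ else Hᶜ
  let nextC : (Y → Set Y) → (Y → Set Y) := fun C y =>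
    if y ∈ H then {y' | T y' ⊆ ⋃ z ∈ stepP C y, stepV C z} else Hᶜ
  let C : ℕ → Y → Set Y := fun n => nextC^[n] C0
  have hCsucc : ∀ n, C (n + 1) = nextC (C n) := fun n => Function.iterate_succ_apply' _ _ _
  have hCgood : ∀ n, (∀ y, IsOpen (C n y)) ∧ (∀ y, y ∈ C n y) ∧ (∀ y, y ∉ H → C n y = Hᶜ) := by
    intro n
    induction n with
    | zero =>
      refine ⟨fun y => ?_, fun y => ?_, fun y hy => ?_⟩
      · show IsOpen (C0 y)
        by_cases h : y ∈ H
        · simp only [C0, h, dif_pos]; exact ho _ (hU0 _)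
        · simp only [C0, h, dif_neg, not_false_iff]; exact hH.isOpen_compl
      · show y ∈ C0 y
        by_cases h : y ∈ H
        · simp only [C0, h, dif_pos]; exact hyU0 ⟨y, h⟩
        · simp only [C0, h, dif_neg, not_false_iff]; exact h
      · show C0 y = Hᶜ
        simp only [C0, hy, dif_neg, not_false_iff]
    | succ n ih =>
      obtain ⟨i1, i2, i3⟩ := ih
      rw [hCsucc]
      refine ⟨fun y => ?_, fun y => ?_, fun y hy => ?_⟩
      · by_cases h : y ∈ H
        · simp only [nextC, h, if_pos]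
          exact hTo _ (isOpen_biUnion fun z _ => s1 _ i1 i2 i3 z)
        · simp only [nextC, h, if_neg, not_false_iff]; exact hH.isOpen_compl
      · by_cases h : y ∈ H
        · simp only [nextC, h, if_pos]
          intro x hx
          obtain ⟨z, hz, hxz⟩ := s6 _ i1 i2 i3 y h x hx
          simp only [mem_iUnion]
          exact ⟨z, hz, hxz⟩
        · simp only [nextC, h, if_neg, not_false_iff]; exact h
      · simp only [nextC, hy, if_neg, not_false_iff]
  let V : ℕ → Y → Set X := fun n => stepV (C n)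
  let P : ℕ → Y → Set Y := fun n => stepP (C n)
  have v1 : ∀ n y, IsOpen (V n y) := fun n =>
    s1 _ (hCgood n).1 (hCgood n).2.1 (hCgood n).2.2
  have v2 : ∀ n y, V n y ⊆ f ⁻¹' (C n y) := fun n =>
    s2 _ (hCgood n).1 (hCgood n).2.1 (hCgood n).2.2
  have v3 : ∀ n x, ∃ y, x ∈ V n y := fun n =>
    s3 _ (hCgood n).1 (hCgood n).2.1 (hCgood n).2.2
  have v4 : ∀ n x, {y | x ∈ V n y}.Countable := fun n =>
    s4 _ (hCgood n).1 (hCgood n).2.1 (hCgood n).2.2
  have v5 : ∀ n, ∀ y ∈ H, (P n y).Finite := fun n =>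
    s5 _ (hCgood n).1 (hCgood n).2.1 (hCgood n).2.2
  have v7 : ∀ n, ∀ y ∈ H, P n y ⊆ H := fun n =>
    s7 _ (hCgood n).1 (hCgood n).2.1 (hCgood n).2.2
  -- members of the cover through points over `H` are indexed by `H`
  have vH : ∀ n w x, x ∈ V n w → f x ∈ H → w ∈ H := by
    intro n w x hx hfx
    by_contra hw
    have h1 := v2 n w hx
    rw [(hCgood n).2.2 w hw] at h1
    exact h1 hfx
  -- covering through parents
  have vP : ∀ n w, w ∈ H → ∀ y, (∃ x, f x = y ∧ x ∈ V (n + 1) w) →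
      T y ⊆ ⋃ z ∈ P n w, V n z := by
    rintro n w hw y ⟨x, rfl, hx⟩
    have h1 := v2 (n + 1) w hx
    rw [hCsucc] at h1
    simp only [nextC, hw, if_pos, mem_preimage] at h1
    exact h1
  -- ancestors
  let Anc : ℕ → Y → Set Y := fun n => Nat.rec (fun w => {w}) (fun m A w => ⋃ z ∈ P m w, A z) n
  have Anc0 : ∀ w, Anc 0 w = {w} := fun w => rfl
  have AncS : ∀ m w, Anc (m + 1) w = ⋃ z ∈ P m w, Anc m z := fun m w => rfl
  have AncH : ∀ m, ∀ w ∈ H, Anc m w ⊆ H := by
    intro m
    induction m with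
    | zero => intro w hw; rw [Anc0]; exact singleton_subset_iff.mpr hw
    | succ m ih =>
      intro w hw
      rw [AncS]
      exact iUnion₂_subset fun z hz => ih z (v7 m w hw hz)
  have AncF : ∀ m, ∀ w ∈ H, (Anc m w).Finite := by
    intro m
    induction m with
    | zero => intro w hw; rw [Anc0]; exact finite_singleton w
    | succ m ih =>
      intro w hw
      rw [AncS]
      exact (v5 m w hw).biUnion fun z hz => ih z (v7 m w hw hz)
  let G : Y → Set X := fun z => ⋃ (m : ℕ) (w : Y) (_ : w ∈ H ∧ z ∈ Anc m w), V m w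
  have hGo : ∀ z, IsOpen (G z) := fun z =>
    isOpen_iUnion fun m => isOpen_iUnion fun w => isOpen_iUnion fun _ => v1 m w
  have hGmem : ∀ z x, x ∈ G z ↔ ∃ m w, (w ∈ H ∧ z ∈ Anc m w) ∧ x ∈ V m w := by
    intro z x
    simp only [G, mem_iUnion, exists_prop]
  -- key claim
  have key : ∀ y ∈ H, ∀ S : Finset X, (∀ x ∈ S, x ∈ T y) → ∀ w ∈ H,
      (∃ x, f x = y ∧ x ∈ V S.card w) →
      ∃ z ∈ Anc S.card w, (∃ x, f x = y ∧ x ∈ V 0 z) ∧ ∀ x ∈ S, x ∈ G z := by
    intro y hy S
    induction S using Finset.induction_on with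
    | empty =>
      intro _ w hw hx
      refine ⟨w, ?_, ?_, ?_⟩
      · simp [Anc0]
      · simpa using hx
      · intro x hx; simp at hx
    | insert a S ha ih =>
      intro hS w hw hx
      rw [Finset.card_insert_of_notMem ha] at hx ⊢
      have h1 := vP _ w hw y hx
      have haT : a ∈ T y := hS a (Finset.mem_insert_self a S)
      have h2 := h1 haT
      simp only [mem_iUnion] at h2
      obtain ⟨w', hw', haw'⟩ := h2
      have hw'H : w' ∈ H := v7 _ w hw hw'
      obtain ⟨z, hz, hz0, hzS⟩ := ih (fun x hx => hS x (Finset.mem_insert_of_mem hx)) w' hw'H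
        ⟨a, hTf y a haT, haw'⟩
      refine ⟨z, ?_, hz0, ?_⟩
      · rw [AncS]
        exact mem_biUnion hw' hz
      · intro x hx
        rcases Finset.mem_insert.mp hx with rfl | hx
        · rw [hGmem]
          exact ⟨S.card, w', ⟨hw'H, hz⟩, haw'⟩
        · exact hzS x hx
  -- the final family
  refine coverable_of_indexed (ι := H) (fun z => {y | T y ⊆ G z.1} ∩ U0 z) ?_ ?_ ?_ ?_
  · intro z
    exact (hTo _ (hGo z.1)).inter (ho _ (hU0 z))
  · intro z
    exact ⟨U0 z, hU0 z, inter_subset_right⟩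
  · intro y hy
    let S : Finset X := (hTfin y hy).toFinset
    obtain ⟨x0, hx0⟩ := hTne y
    obtain ⟨w, hw⟩ := v3 S.card x0
    have hwH : w ∈ H := vH _ w x0 hw (by rw [hTf y x0 hx0]; exact hy)
    obtain ⟨z, hz, ⟨x, hxy, hxz⟩, hzS⟩ := key y hy S (fun x hx => by simpa [S] using hx) w hwH
      ⟨x0, hTf y x0 hx0, hw⟩
    have hzH : z ∈ H := AncH _ w hwH hz
    refine ⟨⟨z, hzH⟩, ?_, ?_⟩
    · intro x hx
      exact hzS x (by simpa [S] using hx)
    · have h1 := v2 0 z hxz
      have h2 : C 0 z = U0 ⟨z, hzH⟩ := by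
        show C0 z = _
        simp only [C0, hzH, dif_pos]
      rw [h2, mem_preimage, hxy] at h1
      exact h1
  · intro y
    obtain ⟨x, hx⟩ := hTne y
    have h1 : {z : Y | ∃ m w, (w ∈ H ∧ z ∈ Anc m w) ∧ x ∈ V m w}.Countable := by
      have : {z : Y | ∃ m w, (w ∈ H ∧ z ∈ Anc m w) ∧ x ∈ V m w} ⊆
          ⋃ m, ⋃ w ∈ {w | x ∈ V m w}, (if w ∈ H then Anc m w else ∅) := by
        rintro z ⟨m, w, ⟨hw, hz⟩, hx⟩
        simp only [mem_iUnion]
        exact ⟨m, w, hx, by rw [if_pos hw]; exact hz⟩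
      refine Set.Countable.mono this (countable_iUnion fun m => (v4 m x).biUnion fun w _ => ?_)
      split_ifs with hw
      · exact (AncF m w hw).countable
      · exact countable_empty
    refine Set.Countable.mono ?_ (h1.preimage_of_injOn (f := fun z : H => z.1)
      Subtype.val_injective.injOn)
    rintro z ⟨hz, _⟩
    exact (hGmem z.1 x).mp (hz hx)

/-- Closed subsets all of whose points have fibres with a finite `boundary`. -/
theorem coverable_of_finite_boundary {X : Type u} {Y : Type v} [TopologicalSpace X]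
    [TopologicalSpace Y] (hX : Metalindelof X) {f : X → Y} (hf : ClosedMapping f)
    (H : Set Y) (hH : IsClosed H)
    (hfin : ∀ y ∈ H, (f ⁻¹' {y} \ interior (f ⁻¹' {y})).Finite)
    (𝒰 : Set (Set Y)) (ho : ∀ U ∈ 𝒰, IsOpen U) (hc : H ⊆ ⋃₀ 𝒰) : Coverable 𝒰 H := by
  classical
  choose g hg using hf.surjective
  let T : Y → Set X := fun y =>
    if y ∈ H then insert (g y) (f ⁻¹' {y} \ interior (f ⁻¹' {y})) else f ⁻¹' {y}
  have hT1 : ∀ y, T y ⊆ f ⁻¹' {y} := by
    intro y
    by_cases h : y ∈ H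
    · simp only [T, h, if_pos]
      rintro x (rfl | hx)
      · exact hg y
      · exact hx.1
    · simp only [T, h, if_neg, not_false_iff, subset_rfl]
  have hT2 : ∀ y, f ⁻¹' {y} ⊆ T y ∪ interior (f ⁻¹' {y}) := by
    intro y x hx
    by_cases h : y ∈ H
    · by_cases hx' : x ∈ interior (f ⁻¹' {y})
      · exact Or.inr hx'
      · left
        simp only [T, h, if_pos]
        exact Or.inr ⟨hx, hx'⟩
    · left
      simpa only [T, h, if_neg, not_false_iff] using hx
  have hgT : ∀ y, g y ∈ T y := by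
    intro y
    by_cases h : y ∈ H
    · simp only [T, h, if_pos]; exact Or.inl rfl
    · simp only [T, h, if_neg, not_false_iff]; exact hg y
  refine coverable_of_selector hX hf.continuous T (fun y => ⟨g y, hgT y⟩)
    (fun y x hx => hT1 y hx) ?_ H hH ?_ 𝒰 ho hc
  · intro W hW
    rw [isOpen_iff_forall_mem_open]
    intro y hy
    refine ⟨{y' | ∀ x, f x = y' → x ∈ W ∪ interior (f ⁻¹' {y})}, ?_,
      isOpen_kern hf.isClosedMap (hW.union isOpen_interior), ?_⟩
    · intro y' hy' x hx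
      have hxf : f x = y' := hT1 y' hx
      rcases hy' x hxf with h | h
      · exact h
      · have h2 : x ∈ f ⁻¹' {y} := interior_subset h
        have h3 : y' = y := hxf.symm.trans h2
        exact hy (h3 ▸ hx)
    · intro x hx
      rcases hT2 y hx with h | h
      · exact Or.inl (hy h)
      · exact Or.inr h
  · intro y hy
    simp only [T, hy, if_pos]
    exact (hfin y hy).insert _

end Pool.Agent.MP_e848aa_gt
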