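import Pool.Agent.MP_e848aa_gt.Basic

/-! Closed mappings onto P-spaces: the transfinite argument. -/

open Set Topology Cardinal

namespace Pool.Agent.MP_e848aa_gt

universe u v w

/-- The set of nonzero ordinals which are approached from below by a countable set of ordinals
is countable. -/
theorem countable_approached (A : Set Ordinal.{w}) (hA : A.Countable) :
    {u : Ordinal.{w} | u ≠ 0 ∧ ∀ u' < u, ∃ s ∈ A, u' ≤ s ∧ s < u}.Countable := by
  classical
  set L := {u : Ordinal.{w} | u ≠ 0 ∧ ∀ u' < u, ∃ s ∈ A, u' ≤ s ∧ s < u} with hL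
  have h1 : L ⊆ {u ∈ L | ∃ s ∈ A, u ≤ s} ∪ {u ∈ L | ∀ s ∈ A, s < u} := by
    intro u hu
    by_cases h : ∃ s ∈ A, u ≤ s
    · exact Or.inl ⟨hu, h⟩
    · push Not at h
      exact Or.inr ⟨hu, h⟩
  refine Set.Countable.mono h1 (Set.Countable.union ?_ ?_)
  · refine Set.MapsTo.countable_of_injOn (f := fun u => sInf {s ∈ A | u ≤ s}) (t := A) ?_ ?_ hA
    · rintro u ⟨_, s, hs, hus⟩
      have : sInf {s ∈ A | u ≤ s} ∈ {s ∈ A | u ≤ s} := csInf_mem ⟨s, hs, hus⟩
      exact this.1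
    · have key : ∀ u v, u ∈ {u ∈ L | ∃ s ∈ A, u ≤ s} → v ∈ {u ∈ L | ∃ s ∈ A, u ≤ s} → u < v →
          sInf {s ∈ A | u ≤ s} < sInf {s ∈ A | v ≤ s} := by
        rintro u v ⟨_, s, hs, hus⟩ ⟨hvL, s', hs', hvs'⟩ huv
        obtain ⟨t, ht, hut, htv⟩ := hvL.2 u huv
        have h2 : sInf {s ∈ A | v ≤ s} ∈ {s ∈ A | v ≤ s} := csInf_mem ⟨s', hs', hvs'⟩
        calc sInf {s ∈ A | u ≤ s} ≤ t := csInf_le' ⟨ht, hut⟩
          _ < v := htv
          _ ≤ _ := h2.2
      intro u hu v hv huv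
      rcases lt_trichotomy u v with h | h | h
      · exact absurd huv (key u v hu hv h).ne
      · exact h
      · exact absurd huv.symm (key v u hv hu h).ne
  · apply Set.Subsingleton.countable
    have key : ∀ u v, u ∈ {u ∈ L | ∀ s ∈ A, s < u} → v ∈ {u ∈ L | ∀ s ∈ A, s < u} → ¬ u < v := by
      rintro u v ⟨_, hu⟩ ⟨hvL, hv⟩ huv
      obtain ⟨t, ht, hut, _⟩ := hvL.2 u huv
      exact absurd (hu t ht) (not_lt.mpr hut)
    intro u hu v hv
    rcases lt_trichotomy u v with h | h | h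
    · exact absurd h (key u v hu hv)
    · exact h
    · exact absurd h (key v u hv hu)

/-- The statement proved by induction on the order type `θ` of the cover. -/
def CoverStat (Y : Type v) [TopologicalSpace Y] (θ : Ordinal.{w}) : Prop :=
  ∀ U : Ordinal.{w} → Set Y, (∀ s, IsOpen (U s)) → ∀ H : Set Y, IsClosed H →
    (∀ y ∈ H, ∃ s < θ, y ∈ U s) → Coverable (U '' Iio θ) (H ∩ {y | IsPPoint y})

/-- `θ` is a limit of countably many smaller ordinals. -/
def CountableLimit (θ : Ordinal.{w}) : Prop :=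
  (∀ t < θ, t + 1 < θ) ∧ ∃ a : ℕ → Ordinal.{w}, (∀ n, a n < θ) ∧ ∀ t < θ, ∃ n, t ≤ a n

/-- The main induction step. -/
theorem coverStat_step {X : Type u} {Y : Type v} [TopologicalSpace X] [TopologicalSpace Y]
    (hX : Metalindelof X) {f : X → Y} (hf : ClosedMapping f) (θ : Ordinal.{w})
    (hθ : ¬ CountableLimit θ) (IH : ∀ u < θ, CoverStat Y u) : CoverStat Y θ := by
  classical
  intro U' hU'o H hH hc'
  -- truncate the family
  set U : Ordinal.{w} → Set Y := fun s => if s < θ then U' s else ∅ with hUdef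
  have hUo : ∀ s, IsOpen (U s) := by
    intro s
    by_cases h : s < θ
    · simp only [hUdef, h, if_pos]; exact hU'o s
    · simp only [hUdef, h, if_neg, not_false_iff]; exact isOpen_empty
  have hUθ : ∀ s y, y ∈ U s → s < θ := by
    intro s y hy
    by_contra h
    simp only [hUdef, h, if_neg, not_false_iff] at hy
    exact hy
  have hUU' : ∀ s, s < θ → U s = U' s := by
    intro s h
    simp only [hUdef, h, if_pos]
  have hc : ∀ y ∈ H, ∃ s, y ∈ U s := by
    intro y hy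
    obtain ⟨s, hs, hys⟩ := hc' y hy
    exact ⟨s, by rw [hUU' s hs]; exact hys⟩
  let good : (Ordinal.{w} → Set X) → Prop := fun V =>
    (∀ s, IsOpen (V s)) ∧ (∀ s, V s ⊆ f ⁻¹' (U s)) ∧ (∀ x, f x ∈ H → ∃ s, x ∈ V s) ∧
      ∀ x, {s | x ∈ V s}.Countable
  let F : (Ordinal.{w} → Set X) → Ordinal.{w} → Set Y := fun V u =>
    f '' {x | ∀ s, x ∈ V s → s < u}
  have hFcl : ∀ V, good V → ∀ u, IsClosed (F V u) := by
    intro V hV u
    apply hf.isClosedMap
    have : {x | ∀ s, x ∈ V s → s < u} = (⋃ (s : Ordinal.{w}) (_ : u ≤ s), V s)ᶜ := by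
      ext x
      simp only [mem_ofPred_eq, mem_compl_iff, mem_iUnion, not_exists]
      constructor
      · intro h s hs hx
        exact absurd (h s hx) (not_lt.mpr hs)
      · intro h s hx
        by_contra hs
        exact h s (not_lt.mp hs) hx
    rw [this]
    exact (isOpen_iUnion fun s => isOpen_iUnion fun _ => hV.1 s).isClosed_compl
  have hFmono : ∀ V u u', u ≤ u' → F V u ⊆ F V u' := by
    rintro V u u' huu' _ ⟨x, hx, rfl⟩
    exact ⟨x, fun s hs => (hx s hs).trans_le huu', rfl⟩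
  have hinit : ∃ V, good V := by
    obtain ⟨V, h1, h2, h3, h4⟩ := hX.shrinkOn (ι := Ordinal.{w}) (fun s => f ⁻¹' (U s))
      (fun s => (hUo s).preimage hf.continuous) (f ⁻¹' H) (hH.preimage hf.continuous)
      (fun x hx => hc (f x) hx)
    exact ⟨V, h1, h2, h3, h4⟩
  have step : ∀ V, good V → ∃ V', good V' ∧ ∀ s, V' s ⊆ f ⁻¹' (F V s)ᶜ := by
    intro V hV
    obtain ⟨V', h1, h2, h3, h4⟩ := hX.shrinkOn (ι := Ordinal.{w})
      (fun s => f ⁻¹' (U s \ F V s))
      (fun s => ((hUo s).sdiff (hFcl V hV s)).preimage hf.continuous) (f ⁻¹' H)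
      (hH.preimage hf.continuous)
      (by
        intro x hx
        have hne : {s | f x ∈ U s}.Nonempty := hc (f x) hx
        refine ⟨sInf {s | f x ∈ U s}, csInf_mem hne, ?_⟩
        rintro ⟨x', hx', hxx'⟩
        obtain ⟨t, ht⟩ := hV.2.2.1 x' (by rw [hxx']; exact hx)
        have h5 := hx' t ht
        have h6 : f x ∈ U t := by rw [← hxx']; exact hV.2.1 t ht
        exact absurd (csInf_le' (s := {s | f x ∈ U s}) h6) (not_le.mpr h5))
    exact ⟨V', ⟨h1, fun s x hx => (h2 s hx).1, h3, h4⟩, fun s x hx => (h2 s hx).2⟩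
  obtain ⟨V0, hV0⟩ := hinit
  choose! next n1 n2 using step
  let V : ℕ → Ordinal.{w} → Set X := fun n => next^[n] V0
  have hVsucc : ∀ n, V (n + 1) = next (V n) := fun n => Function.iterate_succ_apply' _ _ _
  have hV : ∀ n, good (V n) := by
    intro n
    induction n with
    | zero => exact hV0
    | succ n ih => rw [hVsucc]; exact n1 _ ih
  have hVF : ∀ n s, V (n + 1) s ⊆ f ⁻¹' (F (V n) s)ᶜ := by
    intro n
    rw [hVsucc]
    exact n2 _ (hV n)
  -- for `y ∈ H` find the stable ordinal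
  have hstab : ∀ y ∈ H, ∃ n : ℕ, ∃ u ≤ θ, u ≠ 0 ∧ (∀ x, f x = y → ∀ s, x ∈ V n s → s < u) ∧
      ∀ x, f x = y → ∀ u' < u, ∃ s, x ∈ V n s ∧ u' ≤ s := by
    intro y hy
    obtain ⟨x0, hx0⟩ := hf.surjective y
    have hFθ : ∀ n, y ∈ F (V n) θ := by
      intro n
      refine ⟨x0, fun s hs => ?_, hx0⟩
      exact hUθ s (f x0) ((hV n).2.1 s hs)
    let un : ℕ → Ordinal.{w} := fun n => sInf {u | y ∈ F (V n) u}
    have hun : ∀ n, y ∈ F (V n) (un n) := fun n =>
      csInf_mem (s := {u | y ∈ F (V n) u}) ⟨θ, hFθ n⟩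
    have hunmin : ∀ n u, y ∈ F (V n) u → un n ≤ u := fun n u hu =>
      csInf_le' (s := {u | y ∈ F (V n) u}) hu
    have hall : ∀ n x, f x = y → ∀ s, x ∈ V (n + 1) s → s < un n := by
      intro n x hx s hs
      by_contra hcon
      push Not at hcon
      have h1 := hVF n s hs
      apply h1
      rw [hx]
      exact hFmono _ _ _ hcon (hun n)
    have hdec : ∀ n, un (n + 1) ≤ un n := by
      intro n
      exact hunmin _ _ ⟨x0, fun s hs => hall n x0 hx0 s hs, hx0⟩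
    obtain ⟨m, hm⟩ : ∃ m, ∀ n, un m ≤ un n := by
      have hne : (range un).Nonempty := ⟨un 0, 0, rfl⟩
      obtain ⟨m, hm⟩ := csInf_mem hne
      exact ⟨m, fun n => hm ▸ csInf_le' ⟨n, rfl⟩⟩
    refine ⟨m + 1, un m, hunmin _ _ (hFθ m), ?_, hall m, ?_⟩
    · intro h0
      obtain ⟨s, hs⟩ := (hV (m + 1)).2.2.1 x0 (by rw [hx0]; exact hy)
      have := hall m x0 hx0 s hs
      rw [h0] at this
      exact absurd this (not_lt.mpr zero_le)
    · intro x hx u' hu'
      by_contra hcon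
      push Not at hcon
      have h1 : un (m + 1) ≤ u' := hunmin _ _ ⟨x, fun s hs => hcon s hs, hx⟩
      exact absurd (hm (m + 1)) (not_le.mpr (h1.trans_lt hu'))
  -- the induction hypothesis at smaller ordinals
  have hW : ∀ (n : ℕ) (u : Iio θ), Coverable (U '' Iio u.1)
      ((F (V n) u.1 ∩ H) ∩ {y | IsPPoint y}) := by
    intro n u
    refine IH u.1 u.2 U hUo _ ((hFcl _ (hV n) _).inter hH) ?_
    rintro y ⟨⟨x, hx, rfl⟩, hy⟩
    obtain ⟨s, hs⟩ := (hV n).2.2.1 x hy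
    exact ⟨s, hx s hs, (hV n).2.1 s hs⟩
  choose 𝒲 w1 w2 w3 w4 using hW
  -- approach sets
  let N : ℕ → Ordinal.{w} → Set Y := fun n u =>
    {y | ∀ x, f x = y → ∀ u' < u, ∃ s, x ∈ V n s ∧ u' ≤ s ∧ s < u}
  have hfam1 : Coverable (U '' Iio θ)
      {y | ∃ n : ℕ, ∃ t < θ, ∀ x, f x = y → x ∈ V n t} := by
    refine coverable_of_indexed (ι := ℕ × Iio θ)
      (fun p => {y | ∀ x, f x = y → x ∈ V p.1 p.2.1}) ?_ ?_ ?_ ?_
    · rintro ⟨n, t⟩
      exact isOpen_kern hf.isClosedMap ((hV n).1 t.1)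
    · rintro ⟨n, t⟩
      refine ⟨U t.1, ⟨t.1, t.2, rfl⟩, ?_⟩
      intro y hy
      obtain ⟨x, rfl⟩ := hf.surjective y
      exact (hV n).2.1 t.1 (hy x rfl)
    · rintro y ⟨n, t, ht, h⟩
      exact ⟨⟨n, ⟨t, ht⟩⟩, h⟩
    · intro y
      obtain ⟨x, rfl⟩ := hf.surjective y
      have h1 : (⋃ n : ℕ, (fun t : Iio θ => (n, t)) '' {t : Iio θ | x ∈ V n t.1}).Countable := by
        refine countable_iUnion fun n => Set.Countable.image ?_ _
        exact ((hV n).2.2.2 x).preimage_of_injOn (f := fun t : Iio θ => t.1)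
          Subtype.val_injective.injOn
      refine Set.Countable.mono ?_ h1
      rintro ⟨n, t⟩ h
      exact mem_iUnion.mpr ⟨n, t, h x rfl, rfl⟩
  have hfam2 : Coverable (U '' Iio θ)
      {y | ∃ n : ℕ, ∃ u < θ, u ≠ 0 ∧ y ∈ (F (V n) u ∩ H) ∩ {y | IsPPoint y} ∧
        y ∈ interior (N n u)} := by
    refine coverable_of_indexed (ι := Σ p : ℕ × {u : Iio θ // u.1 ≠ 0}, 𝒲 p.1 p.2.1)
      (fun q => q.2.1 ∩ interior (N q.1.1 q.1.2.1.1)) ?_ ?_ ?_ ?_
    · rintro ⟨⟨n, u⟩, W⟩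
      exact (w1 _ _ W.1 W.2).inter isOpen_interior
    · rintro ⟨⟨n, u⟩, W⟩
      obtain ⟨_, ⟨s, hs, rfl⟩, hWs⟩ := w2 _ _ W.1 W.2
      exact ⟨U s, ⟨s, (show s < θ from lt_trans (show s < u.1.1 from hs) u.1.2), rfl⟩,
        inter_subset_left.trans hWs⟩
    · rintro y ⟨n, u, hu, hu0, hyF, hyN⟩
      obtain ⟨W, hW, hyW⟩ := w4 n ⟨u, hu⟩ hyF
      exact ⟨⟨⟨n, ⟨⟨u, hu⟩, hu0⟩⟩, ⟨W, hW⟩⟩, hyW, hyN⟩
    · intro y
      obtain ⟨x, rfl⟩ := hf.surjective y
      have h1 : (⋃ n : ℕ, ⋃ u ∈ {u : {u : Iio θ // u.1 ≠ 0} | f x ∈ N n u.1.1},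
          (fun W : 𝒲 n u.1 => (⟨(n, u), W⟩ : Σ p : ℕ × {u : Iio θ // u.1 ≠ 0}, 𝒲 p.1 p.2.1)) ''
            {W : 𝒲 n u.1 | f x ∈ W.1}).Countable := by
        refine countable_iUnion fun n => Set.Countable.biUnion ?_ fun u _ => ?_
        · have h2 := countable_approached {s | x ∈ V n s} ((hV n).2.2.2 x)
          refine Set.Countable.mono ?_ (h2.preimage_of_injOn
            (f := fun u : {u : Iio θ // u.1 ≠ 0} => u.1.1) ?_)
          · intro u hu
            refine ⟨u.2, fun u' hu' => ?_⟩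
            obtain ⟨s, h3, h4, h5⟩ := hu x rfl u' hu'
            exact ⟨s, h3, h4, h5⟩
          · exact (Subtype.val_injective.comp Subtype.val_injective).injOn
        · refine Set.Countable.image ?_ _
          refine Set.Countable.mono ?_ ((w3 n u.1 (f x)).preimage_of_injOn
            (f := fun W : 𝒲 n u.1 => W.1) Subtype.val_injective.injOn)
          intro W hW
          exact ⟨W.2, hW⟩
      refine Set.Countable.mono ?_ h1
      rintro ⟨⟨n, u⟩, W⟩ ⟨hy1, hy2⟩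
      simp only [mem_iUnion]
      exact ⟨n, u, (show f x ∈ N n u.1.1 from interior_subset hy2), W, hy1, rfl⟩
  have hunion : Coverable (U '' Iio θ)
      (⋃ b : Bool, (bif b then {y | ∃ n : ℕ, ∃ t < θ, ∀ x, f x = y → x ∈ V n t} else
        {y | ∃ n : ℕ, ∃ u < θ, u ≠ 0 ∧ y ∈ (F (V n) u ∩ H) ∩ {y | IsPPoint y} ∧
          y ∈ interior (N n u)})) := by
    apply coverable_iUnion
    intro b
    cases b
    · exact hfam2
    · exact hfam1
  have hfin : Coverable (U '' Iio θ) (H ∩ {y | IsPPoint y}) := by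
    refine hunion.mono_set ?_
    rintro y ⟨hy, hPy⟩
    obtain ⟨n, u, huθ, hu0, hall, hlim⟩ := hstab y hy
    obtain ⟨x0, hx0⟩ := hf.surjective y
    by_cases hsuc : ∃ t, u = t + 1
    · obtain ⟨t, rfl⟩ := hsuc
      refine mem_iUnion.mpr ⟨true, ?_⟩
      refine ⟨n, t, lt_of_lt_of_le (Order.lt_add_one_iff.mpr le_rfl) huθ, ?_⟩
      intro x hx
      obtain ⟨s, hs, hts⟩ := hlim x hx t (Order.lt_add_one_iff.mpr le_rfl)
      have h1 := hall x hx s hs
      have h2 : s = t := le_antisymm (Order.lt_add_one_iff.mp h1) hts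
      exact h2 ▸ hs
    · refine mem_iUnion.mpr ⟨false, ?_⟩
      -- enumerate the countable cofinal set
      have hcount : {s | x0 ∈ V n s}.Countable := (hV n).2.2.2 x0
      have hne : {s | x0 ∈ V n s}.Nonempty := (hV n).2.2.1 x0 (by rw [hx0]; exact hy)
      obtain ⟨a, ha⟩ := hcount.exists_eq_range hne
      have ha1 : ∀ k, a k < u := by
        intro k
        have : a k ∈ {s | x0 ∈ V n s} := by rw [ha]; exact ⟨k, rfl⟩
        exact hall x0 hx0 _ this
      have ha2 : ∀ t < u, ∃ k, t ≤ a k := by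
        intro t ht
        obtain ⟨s, hs, hts⟩ := hlim x0 hx0 t ht
        have : s ∈ range a := by rw [← ha]; exact hs
        obtain ⟨k, rfl⟩ := this
        exact ⟨k, hts⟩
      have hulim : CountableLimit u := by
        refine ⟨fun t ht => ?_, a, ha1, ha2⟩
        rcases lt_or_eq_of_le (Order.add_one_le_of_lt ht) with h | h
        · exact h
        · exact absurd ⟨t, h.symm⟩ hsuc
      have huθ' : u < θ := by
        rcases lt_or_eq_of_le huθ with h | h
        · exact h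
        · exact absurd (h ▸ hulim) hθ
      refine ⟨n, u, huθ', hu0, ⟨⟨⟨x0, fun s hs => hall x0 hx0 s hs, hx0⟩, hy⟩, hPy⟩, ?_⟩
      rw [mem_interior_iff_mem_nhds]
      have hG : ∀ k, {y' | ∀ x, f x = y' → x ∈ ⋃ (s : Ordinal.{w}) (_ : a k ≤ s ∧ s < u), V n s}
          ∈ 𝓝 y := by
        intro k
        refine (isOpen_kern hf.isClosedMap (isOpen_iUnion fun s => isOpen_iUnion fun _ =>
          (hV n).1 s)).mem_nhds ?_
        intro x hx
        obtain ⟨s, hs, hks⟩ := hlim x hx (a k) (ha1 k)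
        simp only [mem_iUnion]
        exact ⟨s, ⟨hks, hall x hx s hs⟩, hs⟩
      refine Filter.mem_of_superset (hPy _ hG) ?_
      intro y' hy' x hx u' hu'
      obtain ⟨k, hk⟩ := ha2 u' hu'
      have := mem_iInter.mp hy' k x hx
      simp only [mem_iUnion] at this
      obtain ⟨s, ⟨h1, h2⟩, h3⟩ := this
      exact ⟨s, h3, hk.trans h1, h2⟩
  refine hfin.mono_refines ?_
  rintro _ ⟨s, hs, rfl⟩
  exact ⟨U' s, ⟨s, hs, rfl⟩, by rw [hUU' s hs]⟩

/-- Passing from ordinal indexed families to sets of open sets. -/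
theorem coverable_of_coverStat {Y : Type v} [TopologicalSpace Y] (𝒰 : Set (Set Y))
    (ho : ∀ U ∈ 𝒰, IsOpen U) (H : Set Y) (hH : IsClosed H) (hc : H ⊆ ⋃₀ 𝒰)
    (h : CoverStat Y (#𝒰).ord) : Coverable 𝒰 (H ∩ {y | IsPPoint y}) := by
  classical
  by_cases hne : H.Nonempty
  · obtain ⟨y0, hy0⟩ := hne
    obtain ⟨W0, hW0, _⟩ := hc hy0
    obtain ⟨r, hr, hord⟩ := Cardinal.exists_ord_eq 𝒰
    let g : 𝒰 → Ordinal.{v} := fun W => Ordinal.typein r W
    have hg : Function.Injective g := Ordinal.typein_injective r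
    have hglt : ∀ W, g W < (#𝒰).ord := by
      intro W
      rw [hord]
      exact Ordinal.typein_lt_type r W
    let U : Ordinal.{v} → Set Y := fun s => ⋃ (W : 𝒰) (_ : g W = s), W.1
    have hU : ∀ W : 𝒰, U (g W) = W.1 := by
      intro W
      apply subset_antisymm
      · refine iUnion₂_subset fun W' hW' => ?_
        rw [hg hW']
      · exact subset_iUnion₂_of_subset W rfl subset_rfl
    refine (h U (fun s => isOpen_iUnion fun W => isOpen_iUnion fun _ => ho W.1 W.2) H hH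
      ?_).mono_refines ?_
    · intro y hy
      obtain ⟨W, hW, hyW⟩ := hc hy
      exact ⟨g ⟨W, hW⟩, hglt _, by rw [hU]; exact hyW⟩
    · rintro _ ⟨s, hs, rfl⟩
      by_cases hs' : ∃ W : 𝒰, g W = s
      · obtain ⟨W, rfl⟩ := hs'
        exact ⟨W.1, W.2, by rw [hU]⟩
      · refine ⟨W0, hW0, ?_⟩
        refine iUnion₂_subset fun W hW => ?_
        exact absurd ⟨W, hW⟩ hs'
  · rw [not_nonempty_iff_eq_empty] at hne
    refine ⟨∅, by simp, by intro V hV; simp at hV, by intro x; simp, ?_⟩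
    rw [hne]
    simp

end Pool.Agent.MP_e848aa_gt
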