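import Pool.Agent.MP_e848aa_gt.AlephOne
import Pool.Agent.MP_e848aa_gt.FiniteBoundary
import Pool.Agent.MP_e848aa_gt.PSpace

/-! Assembling the results. -/

open Set Topology Cardinal

namespace Pool.Agent.MP_e848aa_gt

universe u v w

theorem metalindelof_of_exceptional {X : Type u} {Y : Type v} [TopologicalSpace X]
    [TopologicalSpace Y] (hX : Metalindelof X) {f : X → Y} (hf : ClosedMapping f) (E : Set Y)
    (hE : LindelofNumberLeAlephOneIn E)
    (hcov : ∀ 𝒰 : Set (Set Y), OpenCover 𝒰 → ∀ H : Set Y, IsClosed H → (∀ y ∈ H, y ∉ E) →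
      Coverable 𝒰 H) : Metalindelof Y := by
  classical
  intro 𝒰 h𝒰
  obtain ⟨𝒰', hsub, hcard, hE'⟩ := hE 𝒰 h𝒰
  have hH : IsClosed (⋃₀ 𝒰')ᶜ := (isOpen_sUnion fun U hU => h𝒰.1 U (hsub hU)).isClosed_compl
  obtain ⟨𝒱, v1, v2, v3, v4⟩ := hcov 𝒰 h𝒰 _ hH (fun y hy hyE => hy (hE' hyE))
  have hcard' : #(Option 𝒰') ≤ ℵ₁ := by
    rw [Cardinal.mk_option]
    exact Cardinal.add_le_of_le (Cardinal.aleph0_le_aleph 1) hcard
      (le_trans Cardinal.one_le_aleph0 (Cardinal.aleph0_le_aleph 1))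
  have h := coverable_of_alephOne hX hf hcard'
    (fun o : Option 𝒰' => o.elim 𝒱 (fun U => {U.1})) (by
      intro o V hV
      cases o with
      | none => exact v1 V hV
      | some U =>
        have : V = U.1 := hV
        rw [this]
        exact h𝒰.1 _ (hsub U.2)) (by
      intro o
      cases o with
      | none => exact v3
      | some U =>
        intro y
        refine (countable_singleton U.1).mono ?_
        rintro V ⟨hV, _⟩
        exact hV) (by
      intro y
      by_cases hy : y ∈ ⋃₀ 𝒰'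
      · obtain ⟨U, hU, hyU⟩ := hy
        exact ⟨some ⟨U, hU⟩, U, rfl, hyU⟩
      · obtain ⟨V, hV, hyV⟩ := v4 hy
        exact ⟨none, V, hV, hyV⟩)
  refine hasPCR_of_coverable (h.mono_refines ?_)
  intro V hV
  obtain ⟨o, ho⟩ := mem_iUnion.mp hV
  cases o with
  | none => exact v2 V ho
  | some U =>
    have : V = U.1 := ho
    exact ⟨U.1, hsub U.2, by rw [this]⟩

/-- Closed shrinking of increasing countable covers of a closed subset. -/
theorem CountablyMetacompact.shrink {Y : Type v} [TopologicalSpace Y]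
    (hY : CountablyMetacompact Y) (G : ℕ → Set Y) (ho : ∀ n, IsOpen (G n)) (hm : Monotone G)
    (H : Set Y) (hH : IsClosed H) (hc : H ⊆ ⋃ n, G n) :
    ∃ M : ℕ → Set Y, (∀ n, IsClosed (M n)) ∧ (∀ n, M n ⊆ G n) ∧ H = ⋃ n, M n := by
  classical
  obtain ⟨𝒱, ⟨h1, h2⟩, h3, h4⟩ := hY (range fun n => G n ∪ Hᶜ) (countable_range _) ⟨by
    rintro _ ⟨n, rfl⟩
    exact (ho n).union hH.isOpen_compl, by
    rw [eq_univ_iff_forall]
    intro y
    by_cases hy : y ∈ H
    · obtain ⟨n, hn⟩ := mem_iUnion.mp (hc hy)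
      exact ⟨_, ⟨n, rfl⟩, Or.inl hn⟩
    · exact ⟨_, ⟨0, rfl⟩, Or.inr hy⟩⟩
  have h3' : ∀ V : 𝒱, ∃ n, V.1 ⊆ G n ∪ Hᶜ := by
    intro V
    obtain ⟨_, ⟨n, rfl⟩, hn⟩ := h3 V.1 V.2
    exact ⟨n, hn⟩
  choose k hk using h3'
  refine ⟨fun n => H ∩ (⋃ (V : 𝒱) (_ : n < k V), V.1)ᶜ, ?_, ?_, ?_⟩
  · intro n
    exact hH.inter (isOpen_iUnion fun V : 𝒱 => isOpen_iUnion fun _ => h1 V.1 V.2).isClosed_compl
  · rintro n y ⟨hyH, hy⟩
    have hy' : y ∈ ⋃₀ 𝒱 := by rw [h2]; trivial
    obtain ⟨V, hV, hyV⟩ := hy'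
    simp only [mem_compl_iff, mem_iUnion, not_exists] at hy
    have h5 : k ⟨V, hV⟩ ≤ n := by
      by_contra hcon
      exact hy ⟨V, hV⟩ (not_le.mp hcon) hyV
    rcases hk ⟨V, hV⟩ hyV with h6 | h6
    · exact hm h5 h6
    · exact absurd hyH h6
  · apply subset_antisymm
    · intro y hy
      have hfin : {V : 𝒱 | y ∈ V.1}.Finite := by
        refine Set.Finite.subset ((h4 y).preimage (f := fun V : 𝒱 => V.1)
          Subtype.val_injective.injOn) ?_
        intro V hV
        exact ⟨V.2, hV⟩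
      obtain ⟨n, hn⟩ := (hfin.image k).bddAbove
      refine mem_iUnion.mpr ⟨n, hy, ?_⟩
      simp only [mem_compl_iff, mem_iUnion, not_exists]
      intro V hV hyV
      exact absurd (hn ⟨V, hyV, rfl⟩) (not_le.mpr hV)
    · exact iUnion_subset fun n => inter_subset_left

theorem coverStat_of_countablyMetacompact {X : Type u} {Y : Type v} [TopologicalSpace X]
    [TopologicalSpace Y] (hX : Metalindelof X) {f : X → Y} (hf : ClosedMapping f)
    (hY : CountablyMetacompact Y) (θ : Ordinal.{w}) : CoverStat Y θ := by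
  classical
  induction θ using WellFoundedLT.induction with
  | _ θ IH =>
  by_cases hθ : CountableLimit θ
  · intro U ho H hH hc
    obtain ⟨hlim, a, ha1, ha2⟩ := hθ
    let b : ℕ → Ordinal.{w} := fun n => Nat.rec (a 0) (fun m c => max c (a (m + 1))) n
    have hb0 : b 0 = a 0 := rfl
    have hbs : ∀ n, b (n + 1) = max (b n) (a (n + 1)) := fun n => rfl
    have hbθ : ∀ n, b n < θ := by
      intro n
      induction n with
      | zero => exact ha1 0
      | succ n ih => rw [hbs]; exact max_lt ih (ha1 _)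
    have hab : ∀ n, a n ≤ b n := by
      intro n
      cases n with
      | zero => exact le_rfl
      | succ n => rw [hbs]; exact le_max_right _ _
    have hbm : Monotone b := monotone_nat_of_le_succ fun n => by rw [hbs]; exact le_max_left _ _
    obtain ⟨M, m1, m2, m3⟩ := hY.shrink (fun n => ⋃ (s : Ordinal.{w}) (_ : s < b n), U s)
      (fun n => isOpen_iUnion fun s => isOpen_iUnion fun _ => ho s) (by
        intro n m hnm
        refine iUnion₂_subset fun s hs => ?_
        exact subset_iUnion₂_of_subset s (hs.trans_le (hbm hnm)) subset_rfl) H hH (by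
        intro y hy
        obtain ⟨s, hs, hys⟩ := hc y hy
        obtain ⟨n, hn⟩ := ha2 (s + 1) (hlim s hs)
        refine mem_iUnion.mpr ⟨n, ?_⟩
        simp only [mem_iUnion, exists_prop]
        exact ⟨s, lt_of_lt_of_le (Order.lt_add_one_iff.mpr le_rfl) (hn.trans (hab n)), hys⟩)
    rw [m3, iUnion_inter]
    apply coverable_iUnion
    intro n
    refine (IH (b n) (hbθ n) U ho (M n) (m1 n) ?_).mono_refines ?_
    · intro y hy
      have := m2 n hy
      simp only [mem_iUnion, exists_prop] at this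
      exact this
    · rintro _ ⟨s, hs, rfl⟩
      exact ⟨U s, ⟨s, (show s < θ from lt_trans hs (hbθ n)), rfl⟩, subset_rfl⟩
  · exact coverStat_step hX hf θ hθ IH

theorem not_countableLimit_ord {κ : Cardinal.{w}} (hκ : κ.IsRegular) (h0 : ℵ₀ < κ) :
    ¬ CountableLimit κ.ord := by
  rintro ⟨hlim, a, ha1, ha2⟩
  have h1 : iSup a < κ.ord := by
    apply Cardinal.iSup_lt_ord_lift_of_isRegular hκ
    · simpa using h0
    · exact ha1
  obtain ⟨n, hn⟩ := ha2 _ (hlim _ h1)
  have h2 : a n ≤ iSup a := Ordinal.le_iSup a n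
  exact absurd (hn.trans h2) (not_le.mpr (Order.lt_add_one_iff.mpr le_rfl))

theorem coverStat_of_lt_aleph_omega {X : Type u} {Y : Type v} [TopologicalSpace X]
    [TopologicalSpace Y] (hX : Metalindelof X) {f : X → Y} (hf : ClosedMapping f)
    (θ : Ordinal.{w}) (hcard : θ.card < ℵ_ Ordinal.omega0) : CoverStat Y θ := by
  classical
  induction θ using WellFoundedLT.induction with
  | _ θ IH =>
  by_cases hθ : CountableLimit θ
  · intro U ho H hH hc
    by_cases hcount : θ.card ≤ ℵ₀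
    · refine ⟨U '' Iio θ, ?_, ?_, ?_, ?_⟩
      · rintro _ ⟨s, _, rfl⟩
        exact ho s
      · intro V hV
        exact ⟨V, hV, subset_rfl⟩
      · intro y
        have h1 : (Iio θ).Countable := by
          rw [← Cardinal.le_aleph0_iff_set_countable, Cardinal.mk_Iio_ordinal]
          exact Cardinal.lift_le_aleph0.mpr hcount
        exact (h1.image U).mono fun V hV => hV.1
      · rintro y ⟨hy, _⟩
        obtain ⟨s, hs, hys⟩ := hc y hy
        exact ⟨U s, ⟨s, hs, rfl⟩, hys⟩
    · push Not at hcount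
      have hreg : θ.card.IsRegular := by
        obtain ⟨α, hα⟩ := Cardinal.mem_range_aleph_iff.mpr hcount.le
        rw [← hα] at hcard hcount ⊢
        have hαω : α < Ordinal.omega0 := Cardinal.aleph_lt_aleph.mp hcard
        obtain ⟨n, rfl⟩ := Ordinal.lt_omega0.mp hαω
        cases n with
        | zero => simp at hcount
        | succ n =>
          have := Cardinal.isRegular_aleph_add_one (n : Ordinal.{w})
          simpa using this
      have hne : θ.card.ord < θ := by
        rcases lt_or_eq_of_le (Cardinal.ord_card_le θ) with h | h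
        · exact h
        · exact absurd (h.symm ▸ hθ : CountableLimit θ.card.ord)
            (not_countableLimit_ord hreg hcount)
      have heq : #(Iio θ.card.ord) = #(Iio θ) := by
        rw [Cardinal.mk_Iio_ordinal, Cardinal.mk_Iio_ordinal, Cardinal.card_ord]
      obtain ⟨e⟩ := Cardinal.eq.mp heq
      let U' : Ordinal.{w} → Set Y := fun s =>
        if h : s < θ.card.ord then U (e ⟨s, h⟩).1 else ∅
      have hU' : ∀ s (h : s < θ.card.ord), U' s = U (e ⟨s, h⟩).1 := by
        intro s h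
        simp only [U', h, dif_pos]
      refine (IH θ.card.ord hne (by rw [Cardinal.card_ord]; exact hcard) U' ?_ H hH
        ?_).mono_refines ?_
      · intro s
        by_cases h : s < θ.card.ord
        · rw [hU' s h]; exact ho _
        · simp only [U', h, dif_neg, not_false_iff]; exact isOpen_empty
      · intro y hy
        obtain ⟨s, hs, hys⟩ := hc y hy
        refine ⟨(e.symm ⟨s, hs⟩).1, (e.symm ⟨s, hs⟩).2, ?_⟩
        rw [hU' _ (e.symm ⟨s, hs⟩).2]
        simpa using hys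
      · rintro _ ⟨s, hs, rfl⟩
        refine ⟨U (e ⟨s, hs⟩).1, ⟨_, (e ⟨s, hs⟩).2, rfl⟩, ?_⟩
        rw [hU' s hs]
  · exact coverStat_step hX hf θ hθ fun u hu => IH u hu
      (lt_of_le_of_lt (Ordinal.card_le_card hu.le) hcard)

/-- Combining P-points and points with finite fibre boundary. -/
theorem coverable_mixed {X : Type u} {Y : Type v} [TopologicalSpace X]
    [TopologicalSpace Y] (hX : Metalindelof X) {f : X → Y} (hf : ClosedMapping f)
    (𝒰 : Set (Set Y)) (ho : ∀ U ∈ 𝒰, IsOpen U) (H : Set Y) (hH : IsClosed H) (hc : H ⊆ ⋃₀ 𝒰)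
    (hcov : Coverable 𝒰 (H ∩ {y | IsPPoint y}))
    (htame : ∀ y ∈ H, IsPPoint y ∨ (f ⁻¹' {y} \ interior (f ⁻¹' {y})).Finite) :
    Coverable 𝒰 H := by
  classical
  obtain ⟨𝒱, v1, v2, v3, v4⟩ := hcov
  have hH' : IsClosed (H ∩ (⋃₀ 𝒱)ᶜ) := hH.inter (isOpen_sUnion v1).isClosed_compl
  have h1 := coverable_of_finite_boundary hX hf (H ∩ (⋃₀ 𝒱)ᶜ) hH' (by
    rintro y ⟨hy, hyV⟩
    rcases htame y hy with h | h
    · exact absurd (v4 ⟨hy, h⟩) hyV
    · exact h) 𝒰 ho (fun y hy => hc hy.1)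
  have h2 : Coverable 𝒰 (⋃₀ 𝒱) := ⟨𝒱, v1, v2, v3, subset_rfl⟩
  refine (coverable_iUnion (fun b : Bool => bif b then ⋃₀ 𝒱 else H ∩ (⋃₀ 𝒱)ᶜ) ?_).mono_set ?_
  · intro b
    cases b
    · exact h1
    · exact h2
  · intro y hy
    by_cases h : y ∈ ⋃₀ 𝒱
    · exact mem_iUnion.mpr ⟨true, h⟩
    · exact mem_iUnion.mpr ⟨false, hy, h⟩

end Pool.Agent.MP_e848aa_gt
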