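import Pool.Agent.MP_e848aa_gt.Cofinal
import Pool.Agent.MP_e848aa_gt.Main

/-! Closed mappings with Lindelof fibre boundaries: the descending chain argument. -/

open Set Topology Cardinal

namespace Pool.Agent.MP_e848aa_gt

universe u v w

/-- The closure of a set under a countable-set-valued map and a system of binary rules. -/
inductive Gen {A : Type w} (S : Set A) (c : A → Set A) (R : A → A → A → Prop) : A → Prop
  | base {z : A} : z ∈ S → Gen S c R z
  | down {w z : A} : Gen S c R w → z ∈ c w → Gen S c R z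
  | rule {a b z : A} : Gen S c R a → Gen S c R b → R a b z → Gen S c R z

theorem Gen.countable {A : Type w} {S : Set A} {c : A → Set A} {R : A → A → A → Prop}
    (hS : S.Countable) (hc : ∀ w, (c w).Countable) (hR : ∀ a b, {z | R a b z}.Countable) :
    {z | Gen S c R z}.Countable := by
  let next : Set A → Set A := fun N => N ∪ (⋃ w ∈ N, c w) ∪ ⋃ a ∈ N, ⋃ b ∈ N, {z | R a b z}
  let St : ℕ → Set A := fun n => next^[n] S
  have hSt : ∀ n, St (n + 1) = next (St n) := fun n => Function.iterate_succ_apply' _ _ _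
  have hcount : ∀ n, (St n).Countable := by
    intro n
    induction n with
    | zero => exact hS
    | succ n ih =>
      rw [hSt]
      exact (ih.union (ih.biUnion fun w _ => hc w)).union
        (ih.biUnion fun a _ => ih.biUnion fun b _ => hR a b)
  have hmono1 : ∀ n, St n ⊆ St (n + 1) := by
    intro n z hz
    rw [hSt]
    exact Or.inl (Or.inl hz)
  have hmono : Monotone St := monotone_nat_of_le_succ hmono1
  refine (countable_iUnion hcount).mono ?_
  intro z hz
  have hz' : Gen S c R z := hz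
  induction hz' with
  | base h => exact mem_iUnion.mpr ⟨0, h⟩
  | down h h' ih =>
    obtain ⟨n, hn⟩ := mem_iUnion.mp (ih h)
    refine mem_iUnion.mpr ⟨n + 1, ?_⟩
    rw [hSt]
    exact Or.inl (Or.inr (mem_biUnion hn h'))
  | rule h h' hR' ih ih' =>
    obtain ⟨n, hn⟩ := mem_iUnion.mp (ih h)
    obtain ⟨m, hm⟩ := mem_iUnion.mp (ih' h')
    refine mem_iUnion.mpr ⟨max n m + 1, ?_⟩
    rw [hSt]
    exact Or.inr (mem_biUnion (hmono (le_max_left n m) hn)
      (mem_biUnion (hmono (le_max_right n m) hm) hR'))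

/-- The main covering theorem, in abstract form.  `T` is a selector as before, `c` is a map to
the countable subsets of the index set which is cofinal, `(B₀, R)` is a countable rule system with
the descending chain condition, and open covers of `H` indexed by `A` can be shrunk so that
each `T y` (for `y ∈ H`) which is covered by open sets inside the preimages is covered by
countably many of them. -/
theorem coverable_of_rdcc {X : Type u} {Y : Type v} [TopologicalSpace X] [TopologicalSpace Y]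
    (hX : Metalindelof X) {f : X → Y} (hf : Continuous f)
    (T : Y → Set X) (hTne : ∀ y, (T y).Nonempty) (hTf : ∀ y, ∀ x ∈ T y, f x = y)
    (hTo : ∀ W : Set X, IsOpen W → IsOpen {y | T y ⊆ W})
    (H : Set Y) (hH : IsClosed H)
    {A : Type w} (B₀ : Set A) (R : A → A → A → Prop) (hB₀ : B₀.Countable)
    (hR : ∀ a b, {z | R a b z}.Countable) (hdcc : RDCC B₀ R)
    (c : A → Set A) (hc : ∀ w, (c w).Countable) (hcof : ∀ P : Set A, P.Countable → ∃ w, P ⊆ c w)
    (hS : ∀ O : A → Set Y, (∀ w, IsOpen (O w)) → (∀ y ∈ H, ∃ w, y ∈ O w) →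
      ∃ U : A → Set Y, (∀ w, IsOpen (U w)) ∧ (∀ w, U w ⊆ O w) ∧ (∀ y ∈ H, ∃ w, y ∈ U w) ∧
        ∀ y ∈ H, ∀ W : A → Set X, (∀ z, IsOpen (W z)) → (∀ z, W z ⊆ f ⁻¹' (U z)) →
          T y ⊆ ⋃ z, W z → ∃ P : Set A, P.Countable ∧ T y ⊆ ⋃ z ∈ P, W z)
    (U : A → Set Y) (hUo : ∀ s, IsOpen (U s)) (hUc : ∀ y ∈ H, ∃ s, y ∈ U s) :
    Coverable (range U) H := by
  classical
  let good : (A → Set X) → Prop := fun V =>
    (∀ s, IsOpen (V s)) ∧ (∀ x, f x ∈ H → ∃ s, x ∈ V s) ∧ (∀ x, {s | x ∈ V s}.Countable) ∧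
      ∀ y ∈ H, ∃ w, T y ⊆ ⋃ z ∈ c w, V z
  have base : ∀ O : A → Set Y, (∀ w, IsOpen (O w)) → (∀ y ∈ H, ∃ w, y ∈ O w) →
      ∃ V, good V ∧ ∀ s, V s ⊆ f ⁻¹' (O s) := by
    intro O hO hOc
    obtain ⟨U', u1, u2, u3, u4⟩ := hS O hO hOc
    obtain ⟨V, h1, h2, h3, h4⟩ := hX.shrinkOn (ι := A) (fun s => f ⁻¹' (U' s))
      (fun s => (u1 s).preimage hf) (f ⁻¹' H) (hH.preimage hf)
      (fun x hx => u3 (f x) hx)
    refine ⟨V, ⟨h1, h3, h4, ?_⟩, fun s x hx => u2 s (h2 s hx)⟩
    intro y hy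
    obtain ⟨P, hP, hPc⟩ := u4 y hy V h1 h2 (fun x' hx' => by
      obtain ⟨s, hs⟩ := h3 x' (by
        show f x' ∈ H
        rw [hTf _ x' hx']
        exact hy)
      exact mem_iUnion.mpr ⟨s, hs⟩)
    obtain ⟨w, hw⟩ := hcof P hP
    exact ⟨w, hPc.trans (biUnion_subset_biUnion_left hw)⟩
  obtain ⟨V0, hV0, hV0U⟩ := base U hUo hUc
  have step : ∀ V, good V → ∃ V', good V' ∧
      ∀ w x, x ∈ V' w → T (f x) ⊆ ⋃ z ∈ c w, V z := by
    intro V hV
    obtain ⟨V', h1, h2⟩ := base (fun w => {y | T y ⊆ ⋃ z ∈ c w, V z})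
      (fun w => hTo _ (isOpen_biUnion fun z _ => hV.1 z)) hV.2.2.2
    exact ⟨V', h1, fun w x hx => h2 w hx⟩
  choose! nextV hnext1 hnext2 using step
  let V : ℕ → A → Set X := fun n => nextV^[n] V0
  have hVS : ∀ n, V (n + 1) = nextV (V n) := fun n => Function.iterate_succ_apply' _ _ _
  have hVg : ∀ n, good (V n) := by
    intro n
    induction n with
    | zero => exact hV0
    | succ n ih => rw [hVS]; exact hnext1 _ ih
  have hVn : ∀ n w x, x ∈ V (n + 1) w → T (f x) ⊆ ⋃ z ∈ c w, V n z := by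
    intro n w x hx
    rw [hVS] at hx
    exact hnext2 _ (hVg n) w x hx
  -- the generated sets
  let S : X → Set A := fun x => B₀ ∪ {w | ∃ m, x ∈ V m w}
  let N : X → Set A := fun x => {z | Gen (S x) c R z}
  have hNcount : ∀ x, (N x).Countable := by
    intro x
    apply Gen.countable _ hc hR
    refine hB₀.union ?_
    have : {w | ∃ m, x ∈ V m w} = ⋃ m, {w | x ∈ V m w} := by
      ext w
      simp only [mem_ofPred_eq, mem_iUnion]
    rw [this]
    exact countable_iUnion fun m => (hVg m).2.2.1 x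
  have hNopen : ∀ z, IsOpen {x | z ∈ N x} := by
    intro z
    rw [isOpen_iff_forall_mem_open]
    intro x hx
    have hx' : Gen (S x) c R z := hx
    clear hx
    induction hx' with
    | base h =>
      rename_i z
      rcases h with h | ⟨m, h⟩
      · exact ⟨Set.univ, fun x' _ => Gen.base (Or.inl h), isOpen_univ, trivial⟩
      · exact ⟨V m z, fun x' hx' => Gen.base (Or.inr ⟨m, hx'⟩), (hVg m).1 z, h⟩
    | down h h' ih =>
      obtain ⟨O, hO1, hO2, hO3⟩ := ih
      exact ⟨O, fun x' hx' => Gen.down (hO1 hx') h', hO2, hO3⟩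
    | rule h h' hR' ih ih' =>
      obtain ⟨O, hO1, hO2, hO3⟩ := ih
      obtain ⟨O', hO1', hO2', hO3'⟩ := ih'
      exact ⟨O ∩ O', fun x' hx' => Gen.rule (hO1 hx'.1) (hO1' hx'.2) hR', hO2.inter hO2',
        hO3, hO3'⟩
  -- the key claim
  have key : ∀ y, ∀ E : Finset X, (∀ x ∈ E, x ∈ T y) → ∀ w, (∃ x, f x = y ∧ x ∈ V E.card w) →
      ∃ z, (∃ x, f x = y ∧ x ∈ V 0 z) ∧
        (∀ M : Set A, w ∈ M → (∀ w' ∈ M, c w' ⊆ M) → z ∈ M) ∧ ∀ x ∈ E, z ∈ N x := by
    intro y E
    induction E using Finset.induction_on with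
    | empty =>
      intro _ w hx
      exact ⟨w, by simpa using hx, fun M hM _ => hM, fun x hx => by simp at hx⟩
    | insert a E ha ih =>
      rintro hE w ⟨x, hxy, hx⟩
      rw [Finset.card_insert_of_notMem ha] at hx
      have h1 := hVn _ w x hx
      rw [hxy] at h1
      have h2 := h1 (hE a (Finset.mem_insert_self a E))
      simp only [mem_iUnion] at h2
      obtain ⟨w', hw', haw'⟩ := h2
      obtain ⟨z, hz0, hzM, hzE⟩ := ih (fun x hx => hE x (Finset.mem_insert_of_mem hx)) w'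
        ⟨a, hTf y a (hE a (Finset.mem_insert_self a E)), haw'⟩
      refine ⟨z, hz0, fun M hM hMc => hzM M (hMc w hM hw') hMc, ?_⟩
      intro x hx
      rcases Finset.mem_insert.mp hx with rfl | hx
      · exact hzM (N x) (Gen.base (Or.inr ⟨_, haw'⟩)) (fun w'' hw'' z' hz' => Gen.down hw'' hz')
      · exact hzE x hx
  refine coverable_of_indexed (ι := A) (fun z => {y | T y ⊆ {x | z ∈ N x}} ∩ U z) ?_ ?_ ?_ ?_
  · intro z
    exact (hTo _ (hNopen z)).inter (hUo z)
  · intro z
    exact ⟨U z, ⟨z, rfl⟩, inter_subset_right⟩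
  · intro y hy
    -- the family of finite intersections
    let 𝓕 : Set (Set A) := {M | ∃ E : Finset X, E.Nonempty ∧ (∀ x ∈ E, x ∈ T y) ∧
      M = {z | ∀ x ∈ E, z ∈ N x}}
    have h𝓕ne : 𝓕.Nonempty := by
      obtain ⟨x0, hx0⟩ := hTne y
      exact ⟨_, {x0}, Finset.singleton_nonempty x0, by simpa using hx0, rfl⟩
    obtain ⟨M, ⟨E, hEne, hET, rfl⟩, hM⟩ := hdcc 𝓕 h𝓕ne (by
      rintro _ ⟨E, _, _, rfl⟩
      refine ⟨fun z hz x _ => Gen.base (Or.inl hz), ?_⟩
      intro a ha b hb z hz x hx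
      exact Gen.rule (ha x hx) (hb x hx) hz) (by
      rintro _ ⟨E, hE, hET, rfl⟩ _ ⟨E', _, hET', rfl⟩
      refine ⟨E ∪ E', hE.mono Finset.subset_union_left, ?_, ?_⟩
      · intro x hx
        rcases Finset.mem_union.mp hx with hx | hx
        · exact hET x hx
        · exact hET' x hx
      · ext z
        constructor
        · rintro ⟨h1, h2⟩ x hx
          rcases Finset.mem_union.mp hx with hx | hx
          · exact h1 x hx
          · exact h2 x hx
        · intro h
          exact ⟨fun x hx => h x (Finset.mem_union_left _ hx),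
            fun x hx => h x (Finset.mem_union_right _ hx)⟩)
    obtain ⟨x0, hx0⟩ := hTne y
    obtain ⟨w, hw⟩ := (hVg E.card).2.1 x0 (by rw [hTf y x0 hx0]; exact hy)
    obtain ⟨z, ⟨x, hxy, hxz⟩, -, hzE⟩ := key y E hET w ⟨x0, hTf y x0 hx0, hw⟩
    refine ⟨z, ?_, ?_⟩
    · intro x' hx'
      have h1 : {z | ∀ x ∈ ({x'} : Finset X), z ∈ N x} ∈ 𝓕 :=
        ⟨{x'}, Finset.singleton_nonempty x', by simpa using hx', rfl⟩
      exact hM _ h1 hzE x' (Finset.mem_singleton_self x')
    · have h2 := hV0U z hxz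
      rw [mem_preimage, hxy] at h2
      exact h2
  · intro y
    obtain ⟨x, hx⟩ := hTne y
    exact (hNcount x).mono fun z hz => hz.1 hx

end Pool.Agent.MP_e848aa_gt
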