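import Pool.Agent.MP_e848aa_gt.Noether

/-! Cofinal families of countable sets below aleph omega. -/

open Set Cardinal

namespace Pool.Agent.MP_e848aa_gt

universe u v w

/-- Every type of size at most `ℵ_ k` has at most `ℵ_ k` countable subsets which are cofinal among
all its countable subsets. -/
theorem exists_cofinal_family (k : ℕ) : ∀ (A : Type w), #A ≤ ℵ_ k →
    ∃ 𝒞 : Set (Set A), (∀ C ∈ 𝒞, C.Countable) ∧ #𝒞 ≤ ℵ_ k ∧
      ∀ P : Set A, P.Countable → ∃ C ∈ 𝒞, P ⊆ C := by
  classical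
  induction k with
  | zero =>
    intro A hA
    have hA' : Countable A := by
      rw [← Cardinal.mk_le_aleph0_iff]
      simpa using hA
    refine ⟨{(Set.univ : Set A)}, ?_, ?_, ?_⟩
    · rintro C rfl
      exact countable_univ
    · simp
    · intro P _
      exact ⟨Set.univ, rfl, subset_univ P⟩
  | succ k ih =>
    intro A hA
    have hle : (ℵ_ (k : Ordinal.{w})) ≤ ℵ_ ((k + 1 : ℕ) : Ordinal.{w}) :=
      Cardinal.aleph_le_aleph.mpr (by exact_mod_cast Nat.le_succ k)
    by_cases hAk : #A ≤ ℵ_ k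
    · obtain ⟨𝒞, h1, h2, h3⟩ := ih A hAk
      exact ⟨𝒞, h1, h2.trans hle, h3⟩
    push Not at hAk
    obtain ⟨g, hg, hseg⟩ := exists_rank A (ℵ_ (k + 1 : ℕ)) hA
    have hseg' : ∀ a, #{b | g b < g a} ≤ ℵ_ k := by
      intro a
      have h1 := hseg a
      have h2 : (ℵ_ ((k + 1 : ℕ) : Ordinal.{w})) = Order.succ (ℵ_ (k : Ordinal.{w})) := by
        rw [Cardinal.succ_aleph]
        push_cast
        rfl
      rw [h2, Order.lt_succ_iff] at h1
      exact h1
    choose 𝒞 h1 h2 h3 using fun a => ih _ (hseg' a)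
    refine ⟨⋃ a, (fun C : Set {b | g b < g a} => Subtype.val '' C) '' 𝒞 a, ?_, ?_, ?_⟩
    · intro D hD
      obtain ⟨a, C, hC, rfl⟩ := mem_iUnion.mp hD
      exact (h1 a C hC).image _
    · refine (Cardinal.mk_iUnion_le _).trans ?_
      have h4 : (⨆ a, #((fun C : Set {b | g b < g a} => Subtype.val '' C) '' 𝒞 a)) ≤
          ℵ_ ((k + 1 : ℕ) : Ordinal.{w}) := by
        apply ciSup_le'
        intro a
        exact (Cardinal.mk_image_le).trans ((h2 a).trans hle)
      exact (mul_le_mul' hA h4).trans (Cardinal.mul_eq_self (Cardinal.aleph0_le_aleph _)).le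
    · intro P hP
      have h5 : ∃ a, ∀ b ∈ P, g b < g a := by
        by_contra hcon
        push Not at hcon
        have h6 : (Set.univ : Set A) ⊆ ⋃ b ∈ P, {a | g a ≤ g b} := by
          intro a _
          obtain ⟨b, hb, hab⟩ := hcon a
          exact mem_biUnion hb hab
        have h7 : ∀ b, #{a | g a ≤ g b} ≤ ℵ_ (k : Ordinal.{w}) := by
          intro b
          have h8 : {a | g a ≤ g b} ⊆ {a | g a < g b} ∪ {b} := by
            intro a ha
            have ha' : g a ≤ g b := ha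
            rcases lt_or_eq_of_le ha' with h | h
            · exact Or.inl h
            · exact Or.inr (hg h)
          refine (Cardinal.mk_le_mk_of_subset h8).trans ((Cardinal.mk_union_le _ _).trans ?_)
          refine (add_le_add (hseg' b) ?_).trans
            (Cardinal.add_eq_self (Cardinal.aleph0_le_aleph (k : Ordinal.{w}))).le
          simpa using (Cardinal.one_le_aleph0.trans (Cardinal.aleph0_le_aleph (k : Ordinal.{w})))
        have h9 : #A ≤ ℵ_ (k : Ordinal.{w}) := by
          rw [← Cardinal.mk_univ]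
          refine (Cardinal.mk_le_mk_of_subset h6).trans ?_
          rw [biUnion_eq_iUnion]
          refine (Cardinal.mk_iUnion_le (fun b : P => {a | g a ≤ g b.1})).trans ?_
          have hPc : #P ≤ ℵ_ (k : Ordinal.{w}) :=
            (Cardinal.le_aleph0_iff_set_countable.mpr hP).trans
              (Cardinal.aleph0_le_aleph _)
          have hsup : (⨆ b : P, #{a | g a ≤ g b.1}) ≤ ℵ_ (k : Ordinal.{w}) :=
            ciSup_le' fun b => h7 b.1
          calc #P * (⨆ b : P, #{a | g a ≤ g b.1})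
              ≤ ℵ_ (k : Ordinal.{w}) * ℵ_ (k : Ordinal.{w}) := mul_le_mul' hPc hsup
            _ = ℵ_ (k : Ordinal.{w}) := Cardinal.mul_eq_self (Cardinal.aleph0_le_aleph _)
        exact absurd h9 (not_le.mpr hAk)
      obtain ⟨a, ha⟩ := h5
      obtain ⟨C, hC, hPC⟩ := h3 a {b | b.1 ∈ P} (hP.preimage_of_injOn
        (f := fun b : {b | g b < g a} => b.1) Subtype.val_injective.injOn)
      refine ⟨Subtype.val '' C, mem_iUnion.mpr ⟨a, C, hC, rfl⟩, ?_⟩
      intro b hb
      exact ⟨⟨b, ha b hb⟩, hPC (by exact hb), rfl⟩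

/-- Below aleph omega every nonempty type carries a cofinal map to its countable subsets. -/
theorem exists_cofinal_map (A : Type w) [Nonempty A] (hA : #A < ℵ_ Ordinal.omega0) :
    ∃ c : A → Set A, (∀ w, (c w).Countable) ∧ ∀ P : Set A, P.Countable → ∃ w, P ⊆ c w := by
  classical
  obtain ⟨𝒞, h1, h2, h3⟩ : ∃ 𝒞 : Set (Set A), (∀ C ∈ 𝒞, C.Countable) ∧ #𝒞 ≤ #A ∧
      ∀ P : Set A, P.Countable → ∃ C ∈ 𝒞, P ⊆ C := by
    rcases lt_or_ge (#A) ℵ₀ with h | h
    · have hfin : Finite A := Cardinal.mk_lt_aleph0_iff.mp h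
      refine ⟨{(Set.univ : Set A)}, ?_, ?_, ?_⟩
      · rintro C rfl
        exact countable_univ
      · simpa using Cardinal.one_le_iff_ne_zero.mpr (Cardinal.mk_ne_zero A)
      · intro P _
        exact ⟨Set.univ, rfl, subset_univ P⟩
    · obtain ⟨o, ho⟩ := Cardinal.mem_range_aleph_iff.mpr h
      rw [← ho] at hA
      obtain ⟨k, rfl⟩ := Ordinal.lt_omega0.mp (Cardinal.aleph_lt_aleph.mp hA)
      obtain ⟨𝒞, h1, h2, h3⟩ := exists_cofinal_family k A ho.ge
      exact ⟨𝒞, h1, h2.trans ho.le, h3⟩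
  obtain ⟨C₀, hC₀, _⟩ := h3 ∅ countable_empty
  have : Nonempty 𝒞 := ⟨⟨C₀, hC₀⟩⟩
  obtain ⟨e⟩ := (Cardinal.le_def _ _).mp h2
  refine ⟨fun w => (Function.invFun e w).1, fun w => h1 _ (Function.invFun e w).2, ?_⟩
  intro P hP
  obtain ⟨C, hC, hPC⟩ := h3 P hP
  refine ⟨e ⟨C, hC⟩, ?_⟩
  show P ⊆ (Function.invFun e (e ⟨C, hC⟩)).1
  rw [Function.leftInverse_invFun e.injective ⟨C, hC⟩]
  exact hPC

/-- Below aleph omega every type carries a countable rule system with the descending chain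
condition. -/
theorem exists_noether' (A : Type w) (hA : #A < ℵ_ Ordinal.omega0) :
    ∃ (B₀ : Set A) (R : A → A → A → Prop), B₀.Countable ∧ (∀ a b, {z | R a b z}.Countable) ∧
      RDCC B₀ R := by
  rcases lt_or_ge (#A) ℵ₀ with h | h
  · exact exists_noether 0 A (by simpa using h.le)
  · obtain ⟨o, ho⟩ := Cardinal.mem_range_aleph_iff.mpr h
    rw [← ho] at hA
    obtain ⟨k, rfl⟩ := Ordinal.lt_omega0.mp (Cardinal.aleph_lt_aleph.mp hA)
    exact exists_noether k A ho.ge

end Pool.Agent.MP_e848aa_gt
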