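import Mathlib

/-! Basic definitions for metalindelof spaces and closed mappings. -/

open Set Topology

namespace Pool.Agent.MP_e848aa_gt

universe u v w

/-- A family of subsets of `X` is point-countable if every point of `X` lies in at most
countably many members of the family. -/
def PointCountable {X : Type u} (𝒱 : Set (Set X)) : Prop :=
  ∀ x : X, {V : Set X | V ∈ 𝒱 ∧ x ∈ V}.Countable

/-- An open cover of `X`, as a set of open subsets with union `X`. -/
def OpenCover {X : Type u} [TopologicalSpace X] (𝒰 : Set (Set X)) : Prop :=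
  (∀ U ∈ 𝒰, IsOpen U) ∧ ⋃₀ 𝒰 = univ

/-- `𝒱` refines `𝒰` if every member of `𝒱` is contained in some member of `𝒰`. -/
def Refines {X : Type u} (𝒱 𝒰 : Set (Set X)) : Prop :=
  ∀ V ∈ 𝒱, ∃ U ∈ 𝒰, V ⊆ U

/-- `𝒰` has a point-countable open refinement which covers `X`. -/
def HasPointCountableOpenRefinement {X : Type u} [TopologicalSpace X] (𝒰 : Set (Set X)) : Prop :=
  ∃ 𝒱 : Set (Set X), OpenCover 𝒱 ∧ Refines 𝒱 𝒰 ∧ PointCountable 𝒱

/-- A space is metalindelof if every open cover has a point-countable open refinement. -/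
def Metalindelof (X : Type u) [TopologicalSpace X] : Prop :=
  ∀ 𝒰 : Set (Set X), OpenCover 𝒰 → HasPointCountableOpenRefinement 𝒰

/-- A closed mapping: a continuous surjection which sends closed sets to closed sets. -/
structure ClosedMapping {X : Type u} {Y : Type v} [TopologicalSpace X] [TopologicalSpace Y]
    (f : X → Y) : Prop where
  continuous : Continuous f
  surjective : Function.Surjective f
  isClosedMap : IsClosedMap f

/-- A P-point: every countable intersection of neighbourhoods is a neighbourhood. -/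
def IsPPoint {Y : Type v} [TopologicalSpace Y] (y : Y) : Prop :=
  ∀ G : ℕ → Set Y, (∀ n, G n ∈ 𝓝 y) → (⋂ n, G n) ∈ 𝓝 y

/-- A space is countably metacompact if every countable open cover has a point-finite open
refinement. -/
def CountablyMetacompact (Y : Type v) [TopologicalSpace Y] : Prop :=
  ∀ 𝒰 : Set (Set Y), 𝒰.Countable → OpenCover 𝒰 →
    ∃ 𝒱 : Set (Set Y), OpenCover 𝒱 ∧ Refines 𝒱 𝒰 ∧ ∀ y, {V : Set Y | V ∈ 𝒱 ∧ y ∈ V}.Finite

/-- The subset `E` of `Y` has Lindelof number at most aleph one in `Y`: every open cover of `Y`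
has a subfamily with at most aleph one members which covers `E`. -/
def LindelofNumberLeAlephOneIn {Y : Type v} [TopologicalSpace Y] (E : Set Y) : Prop :=
  ∀ 𝒰 : Set (Set Y), OpenCover 𝒰 → ∃ 𝒰' ⊆ 𝒰, Cardinal.mk 𝒰' ≤ Cardinal.aleph 1 ∧ E ⊆ ⋃₀ 𝒰'

end Pool.Agent.MP_e848aa_gt
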