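import Pool.Agent.MP_e848aa_gt.NoetherCover

/-! Closed mappings whose fibres have a Lindelof boundary. -/

open Set Topology Cardinal

namespace Pool.Agent.MP_e848aa_gt

universe u v w

/-- Closed subsets all of whose points have fibres with a Lindelof `boundary`, and covers with
fewer than aleph omega members. -/
theorem coverable_of_lindelof_boundary {X : Type u} {Y : Type v} [TopologicalSpace X]
    [TopologicalSpace Y] (hX : Metalindelof X) {f : X → Y} (hf : ClosedMapping f)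
    (H : Set Y) (hH : IsClosed H)
    (hlin : ∀ y ∈ H, IsLindelof (f ⁻¹' {y} \ interior (f ⁻¹' {y})))
    (𝒰 : Set (Set Y)) (ho : ∀ U ∈ 𝒰, IsOpen U) (hc : H ⊆ ⋃₀ 𝒰) (hcard : #𝒰 < ℵ_ Ordinal.omega0) :
    Coverable 𝒰 H := by
  classical
  rcases H.eq_empty_or_nonempty with rfl | ⟨y₀, hy₀⟩
  · exact ⟨∅, by simp, fun V hV => by simp at hV, fun y => by simp, by simp⟩
  choose g hg using hf.surjective
  let T : Y → Set X := fun y =>
    if y ∈ H then insert (g y) (f ⁻¹' {y} \ interior (f ⁻¹' {y})) else f ⁻¹' {y}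
  have hT1 : ∀ y, T y ⊆ f ⁻¹' {y} := by
    intro y
    by_cases h : y ∈ H
    · simp only [T, h, if_pos]
      rintro x (rfl | hx)
      · exact hg y
      · exact hx.1
    · simp only [T, h, if_neg, not_false_iff, subset_rfl]
  have hT2 : ∀ y, f ⁻¹' {y} ⊆ T y ∪ interior (f ⁻¹' {y}) := by
    intro y x hx
    by_cases h : y ∈ H
    · by_cases hx' : x ∈ interior (f ⁻¹' {y})
      · exact Or.inr hx'
      · left
        simp only [T, h, if_pos]
        exact Or.inr ⟨hx, hx'⟩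
    · left
      simpa only [T, h, if_neg, not_false_iff] using hx
  have hgT : ∀ y, g y ∈ T y := by
    intro y
    by_cases h : y ∈ H
    · simp only [T, h, if_pos]; exact Or.inl rfl
    · simp only [T, h, if_neg, not_false_iff]; exact hg y
  have hTo : ∀ W : Set X, IsOpen W → IsOpen {y | T y ⊆ W} := by
    intro W hW
    rw [isOpen_iff_forall_mem_open]
    intro y hy
    refine ⟨{y' | ∀ x, f x = y' → x ∈ W ∪ interior (f ⁻¹' {y})}, ?_,
      isOpen_kern hf.isClosedMap (hW.union isOpen_interior), ?_⟩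
    · intro y' hy' x hx
      have hxf : f x = y' := hT1 y' hx
      rcases hy' x hxf with h | h
      · exact h
      · have h2 : x ∈ f ⁻¹' {y} := interior_subset h
        have h3 : y' = y := hxf.symm.trans h2
        exact hy (h3 ▸ hx)
    · intro x hx
      rcases hT2 y hx with h | h
      · exact Or.inl (hy h)
      · exact Or.inr h
  have hTl : ∀ y ∈ H, IsLindelof (T y) := by
    intro y hy
    simp only [T, hy, if_pos]
    have h1 : insert (g y) (f ⁻¹' {y} \ interior (f ⁻¹' {y})) =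
        {g y} ∪ (f ⁻¹' {y} \ interior (f ⁻¹' {y})) := rfl
    rw [h1]
    exact isLindelof_singleton.union (hlin y hy)
  obtain ⟨U₀, hU₀, -⟩ := hc hy₀
  have hne : Nonempty 𝒰 := ⟨⟨U₀, hU₀⟩⟩
  obtain ⟨B₀, R, hB₀, hR, hdcc⟩ := exists_noether' 𝒰 hcard
  obtain ⟨c, hcc, hcof⟩ := exists_cofinal_map 𝒰 hcard
  have h := coverable_of_rdcc hX hf.continuous T (fun y => ⟨g y, hgT y⟩)
    (fun y x hx => hT1 y hx) hTo H hH B₀ R hB₀ hR hdcc c hcc hcof (by
      intro O hO hOc
      refine ⟨O, hO, fun w => subset_rfl, hOc, ?_⟩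
      intro y hy W hWo _ hWc
      exact (hTl y hy).elim_countable_subcover W hWo hWc)
    (fun U : 𝒰 => U.1) (fun U => ho U.1 U.2) (fun y hy => by
      obtain ⟨U, hU, hyU⟩ := hc hy
      exact ⟨⟨U, hU⟩, hyU⟩)
  rw [Subtype.range_coe] at h
  exact h

/-- Closed metalindelof subspaces of the target, and covers with fewer than aleph omega
members. -/
theorem coverable_of_metalindelof_subspace {X : Type u} {Y : Type v} [TopologicalSpace X]
    [TopologicalSpace Y] (hX : Metalindelof X) {f : X → Y} (hf : ClosedMapping f)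
    (H : Set Y) (hH : IsClosed H) (hHm : Metalindelof H)
    (𝒰 : Set (Set Y)) (ho : ∀ U ∈ 𝒰, IsOpen U) (hc : H ⊆ ⋃₀ 𝒰) (hcard : #𝒰 < ℵ_ Ordinal.omega0) :
    Coverable 𝒰 H := by
  classical
  rcases H.eq_empty_or_nonempty with rfl | ⟨y₀, hy₀⟩
  · exact ⟨∅, by simp, fun V hV => by simp at hV, fun y => by simp, by simp⟩
  obtain ⟨U₀, hU₀, -⟩ := hc hy₀
  have hne : Nonempty 𝒰 := ⟨⟨U₀, hU₀⟩⟩
  obtain ⟨B₀, R, hB₀, hR, hdcc⟩ := exists_noether' 𝒰 hcard
  obtain ⟨c, hcc, hcof⟩ := exists_cofinal_map 𝒰 hcard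
  have h := coverable_of_rdcc hX hf.continuous (fun y => f ⁻¹' {y})
    (fun y => hf.surjective y) (fun y x hx => hx)
    (fun W hW => isOpen_kern hf.isClosedMap hW) H hH B₀ R hB₀ hR hdcc c hcc hcof (by
      intro O hO hOc
      obtain ⟨V, v1, v2, v3, v4⟩ := hHm.shrink (ι := 𝒰) (fun w => (Subtype.val ⁻¹' (O w) : Set H))
        (fun w => (hO w).preimage continuous_subtype_val)
        (fun y => hOc y.1 y.2)
      have hG : ∀ w, ∃ G : Set Y, IsOpen G ∧ Subtype.val ⁻¹' G = V w := fun w =>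
        isOpen_induced_iff.mp (v1 w)
      choose G hGo hGV using hG
      refine ⟨fun w => O w ∩ G w, fun w => (hO w).inter (hGo w), fun w => inter_subset_left,
        ?_, ?_⟩
      · intro y hy
        obtain ⟨w, hw⟩ := v3 ⟨y, hy⟩
        refine ⟨w, v2 w hw, ?_⟩
        rw [← hGV w] at hw
        exact hw
      · intro y hy W _ hWU hWc
        refine ⟨{w | (⟨y, hy⟩ : H) ∈ V w}, v4 _, ?_⟩
        intro x hx
        obtain ⟨w, hw⟩ := mem_iUnion.mp (hWc hx)
        have hx' : f x = y := hx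
        have h1 : y ∈ O w ∩ G w := by
          have := hWU w hw
          rw [mem_preimage, hx'] at this
          exact this
        refine mem_biUnion ?_ hw
        show (⟨y, hy⟩ : H) ∈ V w
        rw [← hGV w]
        exact h1.2)
    (fun U : 𝒰 => U.1) (fun U => ho U.1 U.2) (fun y hy => by
      obtain ⟨U, hU, hyU⟩ := hc hy
      exact ⟨⟨U, hU⟩, hyU⟩)
  rw [Subtype.range_coe] at h
  exact h

/-- Combining P-points and points with Lindelof fibre boundary. -/
theorem coverable_mixed_lindelof {X : Type u} {Y : Type v} [TopologicalSpace X]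
    [TopologicalSpace Y] (hX : Metalindelof X) {f : X → Y} (hf : ClosedMapping f)
    (𝒰 : Set (Set Y)) (ho : ∀ U ∈ 𝒰, IsOpen U) (hcard : #𝒰 < ℵ_ Ordinal.omega0)
    (H : Set Y) (hH : IsClosed H) (hc : H ⊆ ⋃₀ 𝒰)
    (hcov : Coverable 𝒰 (H ∩ {y | IsPPoint y}))
    (htame : ∀ y ∈ H, IsPPoint y ∨ IsLindelof (f ⁻¹' {y} \ interior (f ⁻¹' {y}))) :
    Coverable 𝒰 H := by
  classical
  obtain ⟨𝒱, v1, v2, v3, v4⟩ := hcov
  have hH' : IsClosed (H ∩ (⋃₀ 𝒱)ᶜ) := hH.inter (isOpen_sUnion v1).isClosed_compl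
  have h1 := coverable_of_lindelof_boundary hX hf (H ∩ (⋃₀ 𝒱)ᶜ) hH' (by
    rintro y ⟨hy, hyV⟩
    rcases htame y hy with h | h
    · exact absurd (v4 ⟨hy, h⟩) hyV
    · exact h) 𝒰 ho (fun y hy => hc hy.1) hcard
  have h2 : Coverable 𝒰 (⋃₀ 𝒱) := ⟨𝒱, v1, v2, v3, subset_rfl⟩
  refine (coverable_iUnion (fun b : Bool => bif b then ⋃₀ 𝒱 else H ∩ (⋃₀ 𝒱)ᶜ) ?_).mono_set ?_
  · intro b
    cases b
    · exact h1
    · exact h2
  · intro y hy
    by_cases h : y ∈ ⋃₀ 𝒱
    · exact mem_iUnion.mpr ⟨true, h⟩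
    · exact mem_iUnion.mpr ⟨false, hy, h⟩

end Pool.Agent.MP_e848aa_gt
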