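import Pool.Agent.MP_e848aa_gt.Basic

/-! Rule systems with the descending chain condition on sets of size below aleph omega. -/

open Set Cardinal

namespace Pool.Agent.MP_e848aa_gt

universe u v w

/-- Sets closed under a system of binary rules with a set of constants. -/
def RClosed {A : Type w} (B₀ : Set A) (R : A → A → A → Prop) (N : Set A) : Prop :=
  B₀ ⊆ N ∧ ∀ a ∈ N, ∀ b ∈ N, ∀ z, R a b z → z ∈ N

/-- The descending chain condition, in the form of least elements of families which are closed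
under binary intersections. -/
def RDCC {A : Type w} (B₀ : Set A) (R : A → A → A → Prop) : Prop :=
  ∀ 𝓕 : Set (Set A), 𝓕.Nonempty → (∀ N ∈ 𝓕, RClosed B₀ R N) →
    (∀ N ∈ 𝓕, ∀ N' ∈ 𝓕, N ∩ N' ∈ 𝓕) → ∃ N₀ ∈ 𝓕, ∀ N ∈ 𝓕, N₀ ⊆ N

/-- Well-ordering of a type with small initial segments, by ordinals. -/
theorem exists_rank (A : Type w) (κ : Cardinal.{w}) (hA : #A ≤ κ) :
    ∃ g : A → Ordinal.{w}, Function.Injective g ∧ ∀ a, #{b | g b < g a} < κ := by
  obtain ⟨r, hr, h⟩ := Cardinal.exists_ord_eq A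
  refine ⟨fun a => Ordinal.typein r a, Ordinal.typein_injective r, fun a => ?_⟩
  have h1 : Ordinal.typein r a < Ordinal.type r := Ordinal.typein_lt_type r a
  rw [← h, Cardinal.lt_ord, Ordinal.card_typein] at h1
  have h2 : {b | Ordinal.typein r b < Ordinal.typein r a} = {b | r b a} := by
    ext b
    simp only [mem_ofPred_eq]
    exact Ordinal.typein_lt_typein r
  rw [h2]
  exact lt_of_lt_of_le h1 hA

/-- Every type of size at most `ℵ_ k` carries a countable rule system with the descending chain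
condition. -/
theorem exists_noether (k : ℕ) : ∀ (A : Type w), #A ≤ ℵ_ k →
    ∃ (B₀ : Set A) (R : A → A → A → Prop), B₀.Countable ∧ (∀ a b, {z | R a b z}.Countable) ∧
      RDCC B₀ R := by
  classical
  induction k with
  | zero =>
    intro A hA
    have hA' : Countable A := by
      rw [← Cardinal.mk_le_aleph0_iff]
      simpa using hA
    refine ⟨univ, fun _ _ _ => False, countable_univ, fun a b => by simp, ?_⟩
    rintro 𝓕 ⟨N, hN⟩ hcl _
    refine ⟨N, hN, fun N' hN' => ?_⟩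
    have := (hcl N' hN').1
    exact (subset_univ N).trans this
  | succ k ih =>
    intro A hA
    by_cases hAk : #A ≤ ℵ_ k
    · exact ih A hAk
    push Not at hAk
    obtain ⟨g, hg, hseg⟩ := exists_rank A (ℵ_ (k + 1 : ℕ)) hA
    have hseg' : ∀ a, #{b | g b < g a} ≤ ℵ_ k := by
      intro a
      have h1 := hseg a
      have h2 : (ℵ_ ((k + 1 : ℕ) : Ordinal.{w})) = Order.succ (ℵ_ (k : Ordinal.{w})) := by
        rw [Cardinal.succ_aleph]
        push_cast
        rfl
      rw [h2, Order.lt_succ_iff] at h1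
      exact h1
    -- a subset of size `ℵ_ k`
    obtain ⟨B, hB⟩ : ∃ B : Set A, #B = ℵ_ k := Cardinal.le_mk_iff_exists_set.mp hAk.le
    have he : ∀ a, ∃ e : {b | g b < g a} → B, Function.Injective e := by
      intro a
      have : #{b | g b < g a} ≤ #B := by rw [hB]; exact hseg' a
      obtain ⟨f⟩ := Cardinal.le_def _ _ |>.mp this
      exact ⟨f, f.injective⟩
    choose e he using he
    obtain ⟨C₀, Q, hC₀, hQ, hdcc⟩ := ih B (le_of_eq hB)
    let R : A → A → A → Prop := fun a b z =>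
      (∃ (ha : a ∈ B) (hb : b ∈ B) (hz : z ∈ B), Q ⟨a, ha⟩ ⟨b, hb⟩ ⟨z, hz⟩) ∨
      (∃ h : g b < g a, z = (e a ⟨b, h⟩).1) ∨
      (∃ h : g z < g a, b = (e a ⟨z, h⟩).1)
    refine ⟨Subtype.val '' C₀, R, hC₀.image _, ?_, ?_⟩
    · intro a b
      have h1 : {z | ∃ (ha : a ∈ B) (hb : b ∈ B) (hz : z ∈ B),
          Q ⟨a, ha⟩ ⟨b, hb⟩ ⟨z, hz⟩}.Countable := by
        by_cases ha : a ∈ B
        · by_cases hb : b ∈ B
          · refine ((hQ ⟨a, ha⟩ ⟨b, hb⟩).image Subtype.val).mono ?_
            rintro z ⟨_, _, hz, h⟩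
            exact ⟨⟨z, hz⟩, h, rfl⟩
          · refine countable_empty.mono ?_
            rintro z ⟨_, hb', _⟩
            exact absurd hb' hb
        · refine countable_empty.mono ?_
          rintro z ⟨ha', _⟩
          exact absurd ha' ha
      have h2 : {z | ∃ h : g b < g a, z = (e a ⟨b, h⟩).1}.Countable := by
        apply Set.Subsingleton.countable
        rintro z ⟨h, rfl⟩ z' ⟨h', rfl⟩
        rfl
      have h3 : {z | ∃ h : g z < g a, b = (e a ⟨z, h⟩).1}.Countable := by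
        apply Set.Subsingleton.countable
        rintro z ⟨h, hz⟩ z' ⟨h', hz'⟩
        have h4 : e a ⟨z, h⟩ = e a ⟨z', h'⟩ := Subtype.ext (hz.symm.trans hz')
        have h5 := he a h4
        exact congrArg Subtype.val h5
      refine ((h1.union h2).union h3).mono ?_
      rintro z (h | h | h)
      · exact Or.inl (Or.inl h)
      · exact Or.inl (Or.inr h)
      · exact Or.inr h
    · intro 𝓕 hne hcl hint
      -- traces on `B`
      let tr : Set A → Set B := fun N => {b | b.1 ∈ N}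
      obtain ⟨M₀, hM₀, hleast⟩ := hdcc (tr '' 𝓕) (hne.image tr) (by
        rintro _ ⟨N, hN, rfl⟩
        refine ⟨?_, ?_⟩
        · intro b hb
          exact (hcl N hN).1 ⟨b, hb, rfl⟩
        · intro a ha b hb z hz
          exact (hcl N hN).2 a.1 ha b.1 hb z.1 (Or.inl ⟨a.2, b.2, z.2, hz⟩)) (by
        rintro _ ⟨N, hN, rfl⟩ _ ⟨N', hN', rfl⟩
        exact ⟨N ∩ N', hint N hN N' hN', rfl⟩)
      obtain ⟨N₁, hN₁, rfl⟩ := hM₀
      -- minimise the strict supremum
      let ss : Set A → Ordinal.{w} := fun N => sInf {β | ∀ b ∈ N, g b < β}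
      have hssne : ∀ N : Set A, {β | ∀ b ∈ N, g b < β}.Nonempty := by
        intro N
        refine ⟨Order.succ (⨆ b : A, g b), fun b _ => ?_⟩
        exact Order.lt_succ_iff.mpr (Ordinal.le_iSup g b)
      have hss : ∀ N : Set A, ∀ b ∈ N, g b < ss N := fun N => csInf_mem (hssne N)
      have hssle : ∀ (N : Set A) β, (∀ b ∈ N, g b < β) → ss N ≤ β := fun N β h => csInf_le' h
      have hmin : ∃ N₂ ∈ 𝓕, tr N₂ = tr N₁ ∧ ∀ N ∈ 𝓕, tr N = tr N₁ → ss N₂ ≤ ss N := by
        have hne2 : (ss '' {N ∈ 𝓕 | tr N = tr N₁}).Nonempty := ⟨ss N₁, N₁, ⟨hN₁, rfl⟩, rfl⟩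
        obtain ⟨N₂, ⟨hN₂, htr⟩, hs⟩ := csInf_mem hne2
        refine ⟨N₂, hN₂, htr, fun N hN hN' => ?_⟩
        rw [hs]
        exact csInf_le' ⟨N, ⟨hN, hN'⟩, rfl⟩
      obtain ⟨N₂, hN₂, htr₂, hmin₂⟩ := hmin
      refine ⟨N₂, hN₂, fun N hN => ?_⟩
      -- compare with the intersection
      have hN' := hint N hN N₂ hN₂
      have hsub : tr (N ∩ N₂) = tr N₁ := by
        apply subset_antisymm
        · intro b hb
          rw [← htr₂]
          exact hb.2
        · exact hleast _ ⟨_, hN', rfl⟩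
      have hss2 := hmin₂ _ hN' hsub
      intro a ha
      have h1 : g a < ss (N ∩ N₂) := lt_of_lt_of_le (hss N₂ a ha) hss2
      have h2 : ∃ a' ∈ N ∩ N₂, g a ≤ g a' := by
        by_contra hcon
        push Not at hcon
        exact absurd (hssle _ _ hcon) (not_le.mpr h1)
      obtain ⟨a', ha', haa'⟩ := h2
      rcases lt_or_eq_of_le haa' with h | h
      · have h3 : (e a' ⟨a, h⟩).1 ∈ N₂ :=
          (hcl N₂ hN₂).2 a' ha'.2 a ha _ (Or.inr (Or.inl ⟨h, rfl⟩))
        have h4 : e a' ⟨a, h⟩ ∈ tr (N ∩ N₂) := by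
          rw [hsub, ← htr₂]
          exact h3
        exact (hcl N hN).2 a' ha'.1 _ h4.1 a (Or.inr (Or.inr ⟨h, rfl⟩))
      · have : a = a' := hg h
        rw [this]
        exact ha'.1

end Pool.Agent.MP_e848aa_gt
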